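import Mathlib

/-! Definitions used in the statement: dynamic elliptic bootstrap percolation on the lattice of
dimension `D`. -/

namespace Pool.Agent.EB.Ad

open MeasureTheory

/-- Sites of the lattice of dimension `D`. -/
abbrev Site (D : ℕ) := Fin D → ℤ

/-- Spin configurations; `true` is the state `+1` and `false` is the state `-1`. -/
abbrev Config (D : ℕ) := Site D → Bool

/-- The ball `B(0,1)` for the l1 norm. -/
abbrev Ball (D : ℕ) := {x : Site D // ∑ i, |x i| ≤ 1}

variable {D : ℕ}

/-- The configuration seen from `x`, restricted to the ball. -/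
def tau (x : Site D) (σ : Config D) : Ball D → Bool := fun y => σ (x + y.1)

/-- The generator applied to `f`. -/
noncomputable def gen (lam : (Ball D → Bool) → ℝ) (f : Config D → ℝ) (σ : Config D) : ℝ :=
  ∑ᶠ x : Site D, lam (tau x σ) * (f (Function.update σ x true) - f σ)

/-- Functions of finitely many spins. -/
def IsLocal (f : Config D → ℝ) : Prop := ∃ B : Finset (Site D), DependsOn f (B : Set (Site D))

/-- `P t` is the law at time `t` of the process started from all minus: it solves the Kolmogorov
forward equation of the generator on local functions. -/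
structure IsLaw (lam : (Ball D → Bool) → ℝ) (P : ℝ → Measure (Config D)) : Prop where
  prob : ∀ t, IsProbabilityMeasure (P t)
  init : P 0 = Measure.dirac fun _ => false
  forward : ∀ f, IsLocal f → ∀ t, 0 ≤ t →
    HasDerivWithinAt (fun s => ∫ σ, f σ ∂P s) (∫ σ, gen lam f σ ∂P t) (Set.Ici 0) t

/-- Nearest neighbours. -/
def Adj (u v : Site D) : Prop := ∑ i, |u i - v i| = 1

/-- A nearest neighbour path of sites in state `s` joins `a` to `b`. -/
def Joined (s : Bool) (σ : Config D) (a b : Site D) : Prop :=
  σ a = s ∧ Relation.ReflTransGen (fun u v => Adj u v ∧ σ v = s) a b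

/-- The box `B_n`. -/
def Box (D n : ℕ) : Set (Site D) := {x | ∀ i, |x i| ≤ n}

/-- The inner vertex boundary of `B_n`. -/
def Bdry (D n : ℕ) : Set (Site D) := {x | x ∈ Box D n ∧ ∃ y, y ∉ Box D n ∧ Adj x y}

/-- The event that `B_n` is joined to the boundary of `B_(2n)` by a path in state `s`. -/
def Crossing (D : ℕ) (s : Bool) (n : ℕ) : Set (Config D) :=
  {σ | ∃ a ∈ Box D n, ∃ b ∈ Bdry D (2 * n), Joined s σ a b}

/-- The event that the cluster of the origin in state `s` is infinite. -/
def Perc (D : ℕ) (s : Bool) : Set (Config D) := {σ | {b | Joined s σ 0 b}.Infinite}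

/-- The critical time at which plus sites start to percolate. -/
noncomputable def tc (P : ℝ → Measure (Config D)) : ℝ := sInf {t | 0 ≤ t ∧ 0 < P t (Perc D true)}

/-- The critical time at which minus sites stop to percolate. -/
noncomputable def tm (P : ℝ → Measure (Config D)) : ℝ := sInf {t | 0 ≤ t ∧ P t (Perc D false) = 0}

end Pool.Agent.EB.Ad
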