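import Pool.Agent.P.MP_d1873d_pr.Main
import Pool.Agent.P.MP_d1873d_pr.Ad.Defs

/-! Walks on the lattice of dimension `D`: distance, boxes, ring hitting, Peierls bound. -/

namespace Pool.Agent.EB.Ad

open MeasureTheory Set
open scoped ENNReal

abbrev V (D : ℕ) := Fin D → ℤ

variable {D : ℕ}

/-- sup distance -/
def d (u v : V D) : ℕ := Finset.univ.sup fun i => (u i - v i).natAbs

/-- nearest neighbour adjacency -/
def nn (u v : V D) : Prop := ∑ i, (u i - v i).natAbs = 1

/-- star adjacency (including equality) -/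
def st (u v : V D) : Prop := d u v ≤ 1

lemma d_le_iff {u v : V D} {n : ℕ} : d u v ≤ n ↔ ∀ i, (u i - v i).natAbs ≤ n := by
  simp [d, Finset.sup_le_iff]
lemma le_d (u v : V D) (i : Fin D) : (u i - v i).natAbs ≤ d u v := d_le_iff.1 le_rfl i
lemma d_comm (u v : V D) : d u v = d v u := by
  unfold d; congr 1; ext i; omega
@[simp] lemma d_self (u : V D) : d u u = 0 := Nat.le_zero.1 (d_le_iff.2 fun i => by simp)
lemma d_tri (u v w : V D) : d u w ≤ d u v + d v w := d_le_iff.2 fun i => by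
  have := le_d u v i
  have := le_d v w i
  omega
lemma d_eq_zero {u v : V D} (h : d u v = 0) : u = v := by
  ext i
  have := le_d u v i
  omega
lemma d_add (u v w : V D) : d (w + u) (w + v) = d u v := by
  simp [d]
lemma d_zero_add (w v : V D) : d w (w + v) = d 0 v := by
  simpa using d_add 0 v w
lemma nn_symm {u v : V D} (h : nn u v) : nn v u := by
  unfold nn at *
  rw [← h]
  exact Finset.sum_congr rfl fun i _ => by omega
lemma st_symm {u v : V D} (h : st u v) : st v u := by unfold st at *; rwa [d_comm]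
lemma nn_st {u v : V D} (h : nn u v) : d u v ≤ 1 := d_le_iff.2 fun i =>
  (Finset.single_le_sum (f := fun i => (u i - v i).natAbs) (fun _ _ => Nat.zero_le _)
    (Finset.mem_univ i)).trans h.le
lemma nn_add (u v w : V D) : nn (w + u) (w + v) ↔ nn u v := by simp [nn]
lemma st_add (u v w : V D) : st (w + u) (w + v) ↔ st u v := by simp [st, d_add]

/-- the finite box -/
noncomputable def box (c : V D) (n : ℕ) : Finset (V D) :=
  Fintype.piFinset fun i => Finset.Icc (c i - n) (c i + n)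

@[simp] lemma mem_box {c v : V D} {n : ℕ} : v ∈ box c n ↔ d c v ≤ n := by
  simp only [box, Fintype.mem_piFinset, Finset.mem_Icc, d_le_iff]
  exact forall_congr' fun i => by omega

lemma card_box (c : V D) (n : ℕ) : (box c n).card = (2 * n + 1) ^ D := by
  have h1 : ∀ i, (c i + n + 1 - (c i - n)).toNat = 2 * n + 1 := fun i => by omega
  simp [box, Fintype.card_piFinset, Int.card_Icc, h1]

lemma card_le_poly (n : ℕ) : (2 * n + 1 : ℝ) ^ D ≤ 2 ^ D * (n + 1) ^ D := by
  rw [← mul_pow]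
  exact pow_le_pow_left₀ (by positivity) (by linarith) D

lemma finite_box (c : V D) (n : ℕ) : {v | d c v ≤ n}.Finite :=
  (box c n).finite_toSet.subset fun v hv => by simpa using hv

lemma bounded_of_finite {S : Set (V D)} (h : S.Finite) (c : V D) :
    ∃ K, ∀ v ∈ S, d c v ≤ K := by
  obtain ⟨K, hK⟩ := (h.image (d c)).bddAbove
  exact ⟨K, fun v hv => hK ⟨v, hv, rfl⟩⟩

variable {r : (V D) → (V D) → Prop} {S S' : Set (V D)} {a b c : (V D)}

/-- a path leaving a box hits its boundary ring while still inside the box -/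
lemma _root_.Pool.Agent.EB.Conn.hitD (hr : ∀ u v, r u v → d u v ≤ 1) (h : Conn r S a b) (c : (V D)) (k : ℕ)
    (ha : d c a ≤ k) (hb : k ≤ d c b) :
    ∃ u, d c u = k ∧ Conn r (S ∩ {v | d c v ≤ k}) a u := by
  have : Conn r (S ∩ {v | d c v ≤ k}) a b ∨
      ∃ u, d c u = k ∧ Conn r (S ∩ {v | d c v ≤ k}) a u := by
    refine h.ind (Or.inl (Conn.refl ⟨h.1, ha⟩)) fun u v _ ih h2 h3 => ?_
    rcases ih with ih | ih
    · by_cases hv : d c v ≤ k
      · exact Or.inl (ih.tail h2 ⟨h3, hv⟩)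
      · have h4 : d c u ≤ k := ih.right.2
        have h5 := d_tri c u v
        have h6 := hr _ _ h2
        exact Or.inr ⟨u, by omega, ih⟩
    · exact Or.inr ih
  rcases this with h1 | h1
  · exact ⟨b, le_antisymm h1.right.2 hb, h1⟩
  · exact h1

/-- arm of length `k` from `a` -/
def Arm (r : (V D) → (V D) → Prop) (S : Set (V D)) (a : (V D)) (k : ℕ) : Prop := ∃ b, k ≤ d a b ∧ Conn r S a b

/-- infinite cluster at `a` -/
def Inf (r : (V D) → (V D) → Prop) (S : Set (V D)) (a : (V D)) : Prop := {b | Conn r S a b}.Infinite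

lemma Arm.mono {k : ℕ} (h : Arm r S a k) (hS : S ⊆ S') : Arm r S' a k := by
  obtain ⟨b, h1, h2⟩ := h; exact ⟨b, h1, h2.mono hS⟩

lemma Arm.anti {k l : ℕ} (h : Arm r S a k) (hl : l ≤ k) : Arm r S a l := by
  obtain ⟨b, h1, h2⟩ := h; exact ⟨b, hl.trans h1, h2⟩

lemma inf_iff : Inf r S a ↔ ∀ k, Arm r S a k := by
  constructor
  · intro h k
    by_contra hk
    refine h ((finite_box a k).subset fun b hb => ?_)
    by_contra hb'
    exact hk ⟨b, by simp only [mem_ofPred_eq] at hb'; omega, hb⟩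
  · intro h hf
    obtain ⟨K, hK⟩ := bounded_of_finite hf a
    obtain ⟨b, h1, h2⟩ := h (K + 1)
    have := hK b h2
    omega

lemma Inf.mono (h : Inf r S a) (hS : S ⊆ S') : Inf r S' a :=
  Set.Infinite.mono (fun _ hb => Conn.mono hb hS) h

lemma Inf.left (h : Inf r S a) : a ∈ S := by
  obtain ⟨b, hb⟩ := h.nonempty; exact hb.1

lemma Inf.far (h : Inf r S a) (c : (V D)) (K : ℕ) : ∃ b, K ≤ d c b ∧ Conn r S a b := by
  obtain ⟨b, h1, h2⟩ := inf_iff.1 h (K + d c a)
  have := d_tri a c b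
  have := d_comm a c
  exact ⟨b, by omega, h2⟩

section meas
variable {Ω : Type*} [MeasurableSpace Ω] (W : Ω → Set (V D)) (hW : ∀ v, MeasurableSet {ω | v ∈ W ω})
include hW

lemma measurableSet_arm (r : (V D) → (V D) → Prop) (a : (V D)) (k : ℕ) :
    MeasurableSet {ω | Arm r (W ω) a k} := by
  have : {ω | Arm r (W ω) a k} = ⋃ b, {_ω | k ≤ d a b} ∩ {ω | Conn r (W ω) a b} := by
    ext ω; simp [Arm]
  rw [this]
  exact MeasurableSet.iUnion fun b => (MeasurableSet.const _).inter (measurableSet_conn W hW r a b)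

lemma measurableSet_inf (r : (V D) → (V D) → Prop) (a : (V D)) :
    MeasurableSet {ω | Inf r (W ω) a} := by
  have : {ω | Inf r (W ω) a} = ⋂ k, {ω | Arm r (W ω) a k} := by
    ext ω; simp [inf_iff]
  rw [this]
  exact MeasurableSet.iInter fun k => measurableSet_arm W hW r a k

end meas

/-- self avoiding walks of length `l` from `x` inside `W` avoiding `A` -/
def SAW (W : Set (V D)) : ℕ → (V D) → Finset (V D) → Prop
  | 0, x, A => x ∉ A ∧ x ∈ W
  | l + 1, x, A => x ∉ A ∧ x ∈ W ∧ ∃ y, d x y ≤ 1 ∧ SAW W l y (insert x A)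

lemma saw_of_conn (W : Set (V D)) (l : ℕ) : ∀ (x b : (V D)) (A : Finset (V D)), l ≤ d x b →
    Conn st (W \ A) x b → SAW W l x A := by
  induction l with
  | zero => intro x b A _ h; exact ⟨h.1.2, h.1.1⟩
  | succ l ih =>
    intro x b A hd h
    have hb : b ∉ ({x} : Set (V D)) := by
      rintro rfl; simp at hd
    obtain ⟨u, hu, y, -, h2, h3⟩ := h.last_exit (T := {x}) rfl hb
    cases hu
    refine ⟨h.1.2, h.1.1, y, h2, ih y b _ ?_ (h3.mono ?_)⟩
    · have := d_tri x y b
      have : d x y ≤ 1 := h2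
      omega
    · rintro v ⟨⟨h4, h5⟩, h6⟩
      refine ⟨h4, ?_⟩
      simp only [Finset.coe_insert, mem_insert_iff, not_or]
      exact ⟨h6, h5⟩

lemma peierls_aux {Ω : Type*} [MeasurableSpace Ω] (μ : Measure Ω) (W : Ω → Set (V D)) (β : ℝ≥0∞)
    (h : ∀ A : Finset (V D), μ {ω | (A : Set (V D)) ⊆ W ω} ≤ β ^ A.card) (l : ℕ) :
    ∀ (x : (V D)) (A : Finset (V D)),
      μ {ω | (A : Set (V D)) ⊆ W ω ∧ SAW (W ω) l x A} ≤ (3 ^ D) ^ l * β ^ (A.card + l + 1) := by
  induction l with
  | zero =>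
    intro x A
    by_cases hx : x ∈ A
    · have : {ω | (A : Set (V D)) ⊆ W ω ∧ SAW (W ω) 0 x A} = ∅ := by
        ext ω; simp [SAW, hx]
      simp [this]
    · have := h (insert x A)
      rw [Finset.card_insert_of_notMem hx] at this
      simp only [pow_zero, one_mul, add_zero]
      refine le_trans (measure_mono ?_) this
      rintro ω ⟨h1, h2⟩
      simp only [Finset.coe_insert, mem_ofPred_eq]
      exact insert_subset h2.2 h1
  | succ l ih =>
    intro x A
    by_cases hx : x ∈ A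
    · have : {ω | (A : Set (V D)) ⊆ W ω ∧ SAW (W ω) (l+1) x A} = ∅ := by
        ext ω; simp [SAW, hx]
      simp [this]
    have hsub : {ω | (A : Set (V D)) ⊆ W ω ∧ SAW (W ω) (l+1) x A} ⊆
        ⋃ y ∈ box x 1, {ω | ((insert x A : Finset (V D)) : Set (V D)) ⊆ W ω ∧
          SAW (W ω) l y (insert x A)} := by
      rintro ω ⟨h1, -, h2, y, h3, h4⟩
      simp only [mem_iUnion]
      refine ⟨y, by simpa using h3, ?_, h4⟩
      simp only [Finset.coe_insert]
      exact insert_subset h2 h1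
    refine (measure_mono hsub).trans ((measure_biUnion_finset_le _ _).trans ?_)
    refine (Finset.sum_le_card_nsmul _ _ _ fun y _ => ih y (insert x A)).trans ?_
    rw [card_box, Finset.card_insert_of_notMem hx]
    apply le_of_eq
    simp only [nsmul_eq_mul]
    rw [show A.card + 1 + l + 1 = A.card + (l + 1) + 1 by ring, pow_succ (3 ^ D : ℝ≥0∞) l]
    push_cast
    ring

/-- Peierls bound -/
lemma peierls {Ω : Type*} [MeasurableSpace Ω] (μ : Measure Ω) (W : Ω → Set (V D)) (β : ℝ≥0∞)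
    (h : ∀ A : Finset (V D), μ {ω | (A : Set (V D)) ⊆ W ω} ≤ β ^ A.card) (l : ℕ) (x : (V D)) :
    μ {ω | Arm st (W ω) x l} ≤ (3 ^ D * β) ^ l * β := by
  have := peierls_aux μ W β h l x ∅
  refine le_trans (measure_mono ?_) (this.trans (le_of_eq ?_))
  · rintro ω ⟨b, h1, h2⟩
    exact ⟨by simp, saw_of_conn _ _ _ b _ h1 (by simpa using h2)⟩
  · simp only [Finset.card_empty, zero_add, mul_pow, pow_succ, mul_assoc]

/-- the Peierls threshold -/
noncomputable def bet (D : ℕ) : ℝ := (2 * 3 ^ D)⁻¹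

lemma bet_pos (D : ℕ) : 0 < bet D := by unfold bet; positivity

lemma bet_le (D : ℕ) : bet D ≤ 1 := by
  have : (1 : ℝ) ≤ 3 ^ D := one_le_pow₀ (by norm_num)
  exact inv_le_one_of_one_le₀ (by linarith)

lemma peierls_half {Ω : Type*} [MeasurableSpace Ω] (μ : Measure Ω) (W : Ω → Set (V D))
    (h : ∀ A : Finset (V D), μ {ω | (A : Set (V D)) ⊆ W ω} ≤ ENNReal.ofReal (bet D) ^ A.card)
    (l : ℕ) (x : V D) : μ {ω | Arm st (W ω) x l} ≤ ENNReal.ofReal ((1 / 2) ^ l) := by
  refine (peierls μ W _ h l x).trans ?_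
  have e1 : (3 ^ D * ENNReal.ofReal (bet D) : ℝ≥0∞) = ENNReal.ofReal (1 / 2) := by
    rw [show (1 / 2 : ℝ) = 3 ^ D * bet D by unfold bet; field_simp,
      ENNReal.ofReal_mul (by positivity), ENNReal.ofReal_pow (by norm_num)]
    simp
  rw [e1, ← ENNReal.ofReal_pow (by norm_num)]
  exact mul_le_of_le_one_right' (ENNReal.ofReal_le_one.2 (bet_le D))

lemma peierls_inf {Ω : Type*} [MeasurableSpace Ω] (μ : Measure Ω) (W : Ω → Set (V D))
    (h : ∀ A : Finset (V D), μ {ω | (A : Set (V D)) ⊆ W ω} ≤ ENNReal.ofReal (bet D) ^ A.card)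
    (x : V D) : μ {ω | Inf nn (W ω) x} = 0 := by
  have ht := ENNReal.tendsto_ofReal
    (tendsto_pow_atTop_nhds_zero_of_lt_one (r := (1 / 2 : ℝ)) (by norm_num) (by norm_num))
  rw [ENNReal.ofReal_zero] at ht
  refine nonpos_iff_eq_zero.1 (ge_of_tendsto' ht fun l =>
    le_trans (measure_mono fun ω hω => ?_) (peierls_half μ W h l x))
  obtain ⟨b, h1, h2⟩ := inf_iff.1 hω l
  exact ⟨b, h1, h2.mono_rel fun _ _ => nn_st⟩

end Pool.Agent.EB.Ad
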