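import Pool.Agent.P.MP_d1873d_pr.Ad.Basic

/-! Local functions, cylinder functions and uniqueness for the forward equation. -/

namespace Pool.Agent.EB.Ad

open MeasureTheory Set Filter Topology

variable {D : ℕ}

/-- Monotone rate functions with values between a positive constant and one; no symmetry. -/
structure Elliptic (lam : (Ball D → Bool) → ℝ) : Prop where
  mono : Monotone lam
  pos : 0 < lam fun _ => false
  one : (lam fun _ => true) = 1

lemma sum_abs_eq (u : V D) : ∑ i, |u i| = ((∑ i, (u i).natAbs : ℕ) : ℤ) := by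
  push_cast; rfl

lemma ball_d (y : Ball D) : d 0 y.1 ≤ 1 := d_le_iff.2 fun i => by
  have h1 := (Finset.single_le_sum (f := fun i => |y.1 i|) (fun _ _ => abs_nonneg _)
    (Finset.mem_univ i)).trans y.2
  simp only [Int.abs_eq_natAbs] at h1
  simp only [Pi.zero_apply]
  omega

lemma ball_nn (y : Ball D) (hy : y.1 ≠ 0) : nn 0 y.1 := by
  have h1 := y.2
  rw [sum_abs_eq] at h1
  obtain ⟨i, hi⟩ := Function.ne_iff.1 hy
  have h2 := Finset.single_le_sum (f := fun i => (y.1 i).natAbs) (fun _ _ => Nat.zero_le _)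
    (Finset.mem_univ i)
  simp only [Pi.zero_apply] at hi
  simp only [nn, Pi.zero_apply, zero_sub, Int.natAbs_neg]
  omega

noncomputable def cyl (S S' : Finset (V D)) (σ : (Config D)) : ℝ :=
  if (∀ x ∈ S, σ x = true) ∧ ∀ x ∈ S', σ x = false then 1 else 0

lemma expand {f : (Config D) → ℝ} {B : Finset (V D)} (h : DependsOn f (B : Set (V D))) (σ : (Config D)) :
    f σ = ∑ S ∈ B.powerset, f (fun x => decide (x ∈ S)) * cyl S (B \ S) σ := by
  rw [Finset.sum_eq_single (B.filter fun x => σ x = true)]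
  · rw [cyl, if_pos, mul_one]
    · exact h fun x hx => by simp [Finset.mem_coe.1 hx]
    · exact ⟨fun x hx => (Finset.mem_filter.1 hx).2, fun x hx => by
        simp only [Finset.mem_sdiff, Finset.mem_filter, not_and] at hx
        simpa using hx.2 hx.1⟩
  · intro S hS hne
    rw [cyl, if_neg, mul_zero]
    rintro ⟨h1, h2⟩
    refine hne (Finset.ext fun x => ?_)
    rw [Finset.mem_filter]
    refine ⟨fun hx => ⟨Finset.mem_powerset.1 hS hx, h1 x hx⟩, fun hx => ?_⟩
    by_contra h3
    have := h2 x (Finset.mem_sdiff.2 ⟨hx.1, h3⟩)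
    simp [hx.2] at this
  · intro h; exact absurd (Finset.mem_powerset.2 (Finset.filter_subset _ _)) h

lemma cyl_dep (S S' : Finset (V D)) : DependsOn (cyl S S') ((S ∪ S' : Finset (V D)) : Set (V D)) := by
  intro σ σ' h
  unfold cyl
  congr 1
  refine propext (and_congr (forall₂_congr fun x hx => ?_) (forall₂_congr fun x hx => ?_))
  · rw [h x (by simp [hx])]
  · rw [h x (by simp [hx])]

lemma cyl_mul (S S' U U' : Finset (V D)) (σ : (Config D)) :
    cyl S S' σ * cyl U U' σ = cyl (S ∪ U) (S' ∪ U') σ := by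
  simp only [cyl, Finset.forall_mem_union, mul_ite, mul_one, mul_zero]
  split_ifs <;> tauto

lemma cyl_insert (x : (V D)) (S S' : Finset (V D)) (σ : (Config D)) :
    cyl (insert x S) S' σ = cyl S S' σ - cyl S (insert x S') σ := by
  simp only [cyl, Finset.forall_mem_insert]
  cases σ x <;> split_ifs <;> simp_all

lemma cyl_update (y : (V D)) (S S' : Finset (V D)) (σ : (Config D)) :
    cyl S S' (Function.update σ y true) = if y ∈ S' then 0 else cyl (S.erase y) S' σ := by
  split_ifs with h
  · exact if_neg fun h1 => by simpa using h1.2 y h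
  · unfold cyl
    congr 1
    refine propext (and_congr ⟨fun h1 x hx => ?_, fun h1 x hx => ?_⟩ (forall₂_congr fun x hx => ?_))
    · have := h1 x (Finset.mem_of_mem_erase hx)
      rwa [Function.update_of_ne (Finset.ne_of_mem_erase hx)] at this
    · by_cases h2 : x = y
      · subst h2; simp
      · rw [Function.update_of_ne h2]; exact h1 x (Finset.mem_erase.2 ⟨h2, hx⟩)
    · rw [Function.update_of_ne (by rintro rfl; exact h hx)]

lemma cyl_nonneg (S S' : Finset (V D)) (σ : (Config D)) : 0 ≤ cyl S S' σ := by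
  unfold cyl; split_ifs <;> norm_num
lemma cyl_le_one (S S' : Finset (V D)) (σ : (Config D)) : cyl S S' σ ≤ 1 := by
  unfold cyl; split_ifs <;> norm_num

namespace IsLocal

variable {f g : (Config D) → ℝ}

lemma measurable (h : IsLocal f) : Measurable f := by
  obtain ⟨B, h⟩ := h
  obtain ⟨g, rfl⟩ := dependsOn_iff_exists_comp.1 h
  exact (measurable_of_finite g).comp (measurable_restrict _)

lemma bdd (h : IsLocal f) : ∃ C, ∀ σ, ‖f σ‖ ≤ C := by
  obtain ⟨B, h⟩ := h
  obtain ⟨g, rfl⟩ := dependsOn_iff_exists_comp.1 h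
  obtain ⟨C, hC⟩ := (Set.finite_range fun z => ‖g z‖).bddAbove
  exact ⟨C, fun σ => hC ⟨_, rfl⟩⟩

lemma integrable (h : IsLocal f) (μ : Measure (Config D)) [IsFiniteMeasure μ] : Integrable f μ := by
  obtain ⟨C, hC⟩ := h.bdd
  exact Integrable.of_bound h.measurable.aestronglyMeasurable C (Eventually.of_forall hC)

lemma op (h : IsLocal f) (h' : IsLocal g) (F : ℝ → ℝ → ℝ) : IsLocal fun σ => F (f σ) (g σ) := by
  obtain ⟨B, h⟩ := h
  obtain ⟨B', h'⟩ := h'
  exact ⟨B ∪ B', fun σ σ' he => by
    simp only [h fun i hi => he i (by simp [Finset.mem_coe.1 hi]),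
      h' fun i hi => he i (by simp [Finset.mem_coe.1 hi])]⟩

lemma const (c : ℝ) : IsLocal fun _ : Config D => c := ⟨∅, fun _ _ _ => rfl⟩

lemma sum {ι : Type*} (s : Finset ι) (F : ι → (Config D) → ℝ) (h : ∀ i ∈ s, IsLocal (F i)) :
    IsLocal fun σ => ∑ i ∈ s, F i σ := by
  classical
  induction s using Finset.induction_on with
  | empty => exact const 0
  | insert x s hx ih =>
    simp only [Finset.sum_insert hx]
    exact (h x (Finset.mem_insert_self _ _)).op (ih fun i hi => h i (Finset.mem_insert_of_mem hi))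
      (· + ·)

lemma update (h : IsLocal f) (x : (V D)) : IsLocal fun σ => f (Function.update σ x true) := by
  obtain ⟨B, h⟩ := h
  refine ⟨B, fun σ σ' he => h fun i hi => ?_⟩
  by_cases h1 : i = x
  · subst h1; simp
  · simp [h1, he i hi]

end IsLocal

lemma cyl_local (S S' : Finset (V D)) : IsLocal (cyl S S') := ⟨_, cyl_dep S S'⟩

variable (lam : ((Ball D) → Bool) → ℝ)

lemma lx_dep (x : (V D)) : DependsOn (fun σ => lam (tau x σ)) (box x 1 : Set (V D)) := by
  intro σ σ' h
  simp only
  congr 1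
  ext y
  refine h _ ?_
  simp only [Finset.mem_coe, mem_box, d_zero_add]
  exact ball_d y

noncomputable def genB (B : Finset (V D)) (f : (Config D) → ℝ) (σ : (Config D)) : ℝ :=
  ∑ x ∈ B, lam (tau x σ) * (f (Function.update σ x true) - f σ)

lemma gen_eq {f : (Config D) → ℝ} {B : Finset (V D)} (h : DependsOn f (B : Set (V D))) :
    gen lam f = genB lam B f := by
  ext σ
  refine finsum_eq_sum_of_support_subset _ fun x hx => ?_
  by_contra h1
  refine hx ?_
  simp only
  rw [h (x := Function.update σ x true) (y := σ) fun i hi =>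
    Function.update_of_ne (by rintro rfl; exact h1 hi) _ _, sub_self, mul_zero]

lemma genB_local (B : Finset (V D)) {f : (Config D) → ℝ} (h : IsLocal f) : IsLocal (genB lam B f) :=
  IsLocal.sum B _ fun x _ => IsLocal.op ⟨_, lx_dep lam x⟩ ((h.update x).op h (· - ·)) (· * ·)

lemma gen_local {f : (Config D) → ℝ} (h : IsLocal f) : IsLocal (gen lam f) := by
  obtain ⟨B, hB⟩ := h
  rw [gen_eq lam hB]; exact genB_local lam B ⟨B, hB⟩

variable {lam}

lemma Elliptic.nonneg (h : Elliptic lam) (η : (Ball D) → Bool) : 0 ≤ lam η :=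
  h.pos.le.trans (h.mono fun _ => Bool.false_le _)

lemma Elliptic.le_one (h : Elliptic lam) (η : (Ball D) → Bool) : lam η ≤ 1 :=
  (h.mono fun _ => Bool.le_true _).trans h.one.le

section unique

variable (μ ν : Measure (Config D)) [IsProbabilityMeasure μ] [IsProbabilityMeasure ν]

noncomputable def Dm (μ ν : Measure (Config D)) (f : (Config D) → ℝ) : ℝ := ∫ σ, f σ ∂μ - ∫ σ, f σ ∂ν

lemma Dm_sum {ι : Type*} (s : Finset ι) (F : ι → (Config D) → ℝ) (h : ∀ i ∈ s, IsLocal (F i)) :
    Dm μ ν (fun σ => ∑ i ∈ s, F i σ) = ∑ i ∈ s, Dm μ ν (F i) := by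
  simp only [Dm, Finset.sum_sub_distrib]
  rw [integral_finsetSum _ fun i hi => (h i hi).integrable μ,
    integral_finsetSum _ fun i hi => (h i hi).integrable ν]

lemma Dm_sub {f g : (Config D) → ℝ} (h : IsLocal f) (h' : IsLocal g) :
    Dm μ ν (fun σ => f σ - g σ) = Dm μ ν f - Dm μ ν g := by
  simp only [Dm]
  rw [integral_sub (h.integrable μ) (h'.integrable μ), integral_sub (h.integrable ν) (h'.integrable ν)]
  ring

omit [IsProbabilityMeasure μ] [IsProbabilityMeasure ν] in
lemma Dm_mul (c : ℝ) (f : (Config D) → ℝ) : Dm μ ν (fun σ => c * f σ) = c * Dm μ ν f := by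
  simp only [Dm, integral_const_mul, mul_sub]

lemma Dm_cyl_le (S S' : Finset (V D)) : |Dm μ ν (cyl S S')| ≤ 1 := by
  have h : ∀ (μ : Measure (Config D)) [IsProbabilityMeasure μ],
      0 ≤ ∫ σ, cyl S S' σ ∂μ ∧ ∫ σ, cyl S S' σ ∂μ ≤ 1 := fun μ _ =>
    ⟨integral_nonneg (cyl_nonneg S S'), by
      simpa using integral_mono ((cyl_local S S').integrable μ) (integrable_const 1) (cyl_le_one S S')⟩
  have := h μ
  have := h ν
  rw [abs_le, Dm]
  constructor <;> linarith

lemma Dm_gen (h : Elliptic lam) {n : ℕ} {u : ℝ}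
    (hu : ∀ U U' : Finset (V D), U.card + U'.card ≤ n + 3 ^ D → |Dm μ ν (cyl U U')| ≤ u)
    {S S' : Finset (V D)} (hS : S.card + S'.card ≤ n) :
    |Dm μ ν (gen lam (cyl S S'))| ≤ 2 * 2 ^ 3 ^ D * n * u := by
  have u0 : 0 ≤ u := (abs_nonneg _).trans (hu ∅ ∅ (by simp))
  have a1 : ∀ y (U U' : Finset (V D)), U.card + U'.card ≤ n →
      |Dm μ ν fun σ => lam (tau y σ) * cyl U U' σ| ≤
        2 ^ 3 ^ D * u := by
    intro y U U' hU
    have : (fun σ => lam (tau y σ) * cyl U U' σ) = fun σ => ∑ T ∈ (box y 1).powerset,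
        lam (tau y fun x => decide (x ∈ T)) * cyl (T ∪ U) (box y 1 \ T ∪ U') σ := by
      ext σ
      rw [expand (lx_dep lam y) σ, Finset.sum_mul]
      simp only [mul_assoc, cyl_mul]
    rw [this, Dm_sum _ _ _ _ fun T _ => (IsLocal.const _).op (cyl_local _ _) (· * ·)]
    refine (Finset.abs_sum_le_sum_abs _ _).trans ((Finset.sum_le_card_nsmul _ _ u fun T hT => ?_).trans ?_)
    · rw [Dm_mul, abs_mul, abs_of_nonneg (h.nonneg _)]
      refine (mul_le_of_le_one_left (abs_nonneg _) (h.le_one _)).trans (hu _ _ ?_)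
      have h1 := Finset.card_union_le T U
      have h2 := Finset.card_union_le (box y 1 \ T) U'
      have h3 := Finset.card_sdiff_add_card_eq_card (Finset.mem_powerset.1 hT)
      rw [card_box, show 2 * 1 + 1 = 3 from rfl] at h3
      omega
    · rw [Finset.card_powerset, card_box]; norm_num
  have l1 : ∀ y {f}, IsLocal f → IsLocal fun σ => lam (tau y σ) * f σ := fun y f hf =>
    IsLocal.op ⟨_, lx_dep lam y⟩ hf (· * ·)
  rw [gen_eq lam (cyl_dep S S')]
  unfold genB
  rw [Dm_sum _ _ _ _ fun y _ => l1 y (((cyl_local _ _).update y).op (cyl_local _ _) (· - ·))]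
  refine (Finset.abs_sum_le_sum_abs _ _).trans
    ((Finset.sum_le_card_nsmul _ _ (2 * 2 ^ 3 ^ D * u) fun y _ => ?_).trans ?_)
  · simp only [mul_sub]
    rw [Dm_sub _ _ (l1 y ((cyl_local _ _).update y)) (l1 y (cyl_local _ _))]
    refine (abs_sub _ _).trans ?_
    have a2 := a1 y S S' hS
    have a3 : |Dm μ ν fun σ => lam (tau y σ) * cyl S S' (Function.update σ y true)| ≤
        2 ^ 3 ^ D * u := by
      simp only [cyl_update]
      split_ifs with hy
      · simp only [mul_zero, Dm, integral_zero, sub_self, abs_zero]; positivity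
      · exact a1 y _ _ (by have := Finset.card_erase_le (s := S) (a := y); omega)
    linarith
  · have : ((S ∪ S').card : ℝ) ≤ n := by exact_mod_cast (Finset.card_union_le S S').trans hS
    rw [nsmul_eq_mul]
    exact (mul_le_mul_of_nonneg_right this (by positivity)).trans (le_of_eq (by ring))

lemma eq_of_cyl (h : ∀ S S', Dm μ ν (cyl S S') = 0) : μ = ν := by
  have h1 : ∀ f, IsLocal f → Dm μ ν f = 0 := by
    rintro f ⟨B, hB⟩
    rw [funext (expand hB), Dm_sum _ _ _ _ fun T _ => (IsLocal.const _).op (cyl_local _ _) (· * ·)]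
    simp only [Dm_mul, h, mul_zero, Finset.sum_const_zero]
  refine ext_of_generate_finite (measurableCylinders fun _ : (Site D) => Bool)
    generateFrom_measurableCylinders.symm isPiSystem_measurableCylinders (fun C hC => ?_) (by simp)
  have mC := MeasurableSet.of_mem_measurableCylinders hC
  obtain ⟨s, S, -, rfl⟩ := (mem_measurableCylinders _).1 hC
  have := h1 ((cylinder s S).indicator 1) ⟨s, fun σ σ' he => by
    have : s.restrict σ = s.restrict σ' := funext fun i => he i i.2
    have h2 : σ ∈ cylinder s S ↔ σ' ∈ cylinder s S := by simp only [mem_cylinder, this]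
    by_cases h3 : σ ∈ cylinder s S
    · rw [indicator_of_mem h3, indicator_of_mem (h2.1 h3)]; rfl
    · rw [indicator_of_notMem h3, indicator_of_notMem (mt h2.2 h3)]⟩
  rw [Dm, integral_indicator_one mC, integral_indicator_one mC, sub_eq_zero] at this
  exact (measureReal_eq_measureReal_iff (measure_ne_top _ _) (measure_ne_top _ _)).1 this

end unique

noncomputable def acoef (a : ℝ) (N k n : ℕ) : ℝ :=
  a ^ k * (∏ j ∈ Finset.range k, (n + N * j : ℝ)) / k.factorial

lemma acoef_le {a : ℝ} (ha : 0 ≤ a) {N : ℕ} (hN : 1 ≤ N) (k n : ℕ) :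
    acoef a N k n ≤ 2 ^ n * (a * (N * 2)) ^ k := by
  have h1 : ∏ j ∈ Finset.range k, (n + N * j) ≤ N ^ k * (k.factorial * 2 ^ (n + k)) := by
    calc ∏ j ∈ Finset.range k, (n + N * j) ≤ ∏ j ∈ Finset.range k, (N * (n + 1 + j)) :=
          Finset.prod_le_prod' fun j _ => by nlinarith [Nat.mul_le_mul_right n hN]
      _ = N ^ k * (n + 1).ascFactorial k := by
          rw [Finset.prod_mul_distrib, Nat.ascFactorial_eq_prod_range]; simp
      _ ≤ _ := by
          rw [Nat.ascFactorial_eq_factorial_mul_choose]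
          exact Nat.mul_le_mul_left _ (Nat.mul_le_mul_left _ (Nat.choose_le_two_pow _ _))
  have h2 : ∏ j ∈ Finset.range k, (n + N * j : ℝ) ≤ N ^ k * (k.factorial * 2 ^ (n + k)) := by
    exact_mod_cast h1
  rw [acoef, div_le_iff₀ (by positivity)]
  refine (mul_le_mul_of_nonneg_left h2 (by positivity)).trans (le_of_eq ?_)
  rw [mul_pow, mul_pow, pow_add]
  ring

theorem IsLaw.unique (h : Elliptic lam) {P P' : ℝ → Measure (Config D)} (hP : IsLaw lam P)
    (hP' : IsLaw lam P') {t : ℝ} (ht : 0 ≤ t) : P t = P' t := by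
  have := hP.prob
  have := hP'.prob
  have hd : ∀ f, IsLocal f → ∀ t, 0 ≤ t → HasDerivWithinAt (fun s => Dm (P s) (P' s) f)
      (Dm (P t) (P' t) (gen lam f)) (Ici 0) t := fun f hf t ht =>
    (hP.forward f hf t ht).sub (hP'.forward f hf t ht)
  obtain ⟨N, hN⟩ : ∃ N : ℕ, N = 3 ^ D := ⟨_, rfl⟩
  have N1 : 1 ≤ N := hN ▸ Nat.one_le_pow _ _ (by norm_num)
  obtain ⟨a, ha⟩ : ∃ a : ℝ, a = 2 * 2 ^ N := ⟨_, rfl⟩
  have a0 : 0 < a := by rw [ha]; positivity
  obtain ⟨w, hw⟩ : ∃ w : ℝ, w = a * (N * 2) := ⟨_, rfl⟩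
  have w0 : 0 < w := by rw [hw]; positivity
  have step : ∀ t0, 0 ≤ t0 → P t0 = P' t0 → ∀ t, t0 ≤ t → t ≤ t0 + 1 / (2 * w) →
      P t = P' t := by
    intro t0 h0 he t h1 h2
    have key : ∀ k n (S S' : Finset (V D)), S.card + S'.card ≤ n → ∀ s ∈ Icc t0 t,
        |Dm (P s) (P' s) (cyl S S')| ≤ acoef a N k n * (s - t0) ^ k := by
      intro k
      induction k with
      | zero => intro n S S' _ s _; simpa [acoef] using Dm_cyl_le _ _ S S'
      | succ k ih =>
        intro n S S' hn
        refine image_norm_le_of_norm_deriv_right_le_deriv_boundary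
          (f := fun s => Dm (P s) (P' s) (cyl S S'))
          (f' := fun s => Dm (P s) (P' s) (gen lam (cyl S S')))
          (B := fun s => acoef a N (k + 1) n * (s - t0) ^ (k + 1))
          (B' := fun s => acoef a N (k + 1) n * ((k + 1 : ℕ) * (s - t0) ^ k * 1))
          (fun s hs => ((hd _ (cyl_local S S') s (h0.trans hs.1)).continuousWithinAt).mono
            fun u hu => h0.trans hu.1)
          (fun s hs => (hd _ (cyl_local S S') s (h0.trans hs.1)).mono
            (Ici_subset_Ici.2 (h0.trans hs.1))) (by simp [Dm, he])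
          (fun s => (((hasDerivAt_id s).sub_const t0).pow (k + 1)).const_mul _) fun s hs => ?_
        refine (Dm_gen _ _ h (fun U U' hU => ih (n + N) U U' (hN ▸ hU) s ⟨hs.1, hs.2.le⟩) hn).trans
          (le_of_eq ?_)
        rw [← hN, ← ha]
        simp only [acoef, Finset.prod_range_succ', Nat.factorial_succ]
        push_cast
        rw [Finset.prod_congr rfl (g := fun j : ℕ => (n + N + N * j : ℝ)) fun j _ => by ring]
        field_simp
        ring_nf
    refine eq_of_cyl _ _ fun S S' => ?_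
    have ht := (tendsto_pow_atTop_nhds_zero_of_lt_one (r := (1 / 2 : ℝ)) (by norm_num)
      (by norm_num)).const_mul (2 ^ (S.card + S'.card))
    rw [mul_zero] at ht
    refine abs_nonpos_iff.1 (ge_of_tendsto' ht fun k => (key k _ S S' le_rfl t ⟨h1, le_rfl⟩).trans ?_)
    refine (mul_le_mul_of_nonneg_right (acoef_le a0.le N1 _ _) (pow_nonneg (by linarith) _)).trans ?_
    rw [mul_assoc, ← mul_pow, ← hw]
    refine mul_le_mul_of_nonneg_left (pow_le_pow_left₀ (by nlinarith) ?_ _) (by positivity)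
    rw [← sub_le_iff_le_add', le_div_iff₀ (by positivity)] at h2
    linarith
  have : ∀ m : ℕ, ∀ t : ℝ, 0 ≤ t → t ≤ m * (1 / (2 * w)) → P t = P' t := by
    intro m
    induction m with
    | zero =>
      intro t h1 h2
      rw [show t = 0 by simp at h2; linarith, hP.init, hP'.init]
    | succ m ih =>
      intro t h1 h2
      rcases le_total t (m * (1 / (2 * w))) with h3 | h3
      · exact ih t h1 h3
      · exact step _ (by positivity) (ih _ (by positivity) le_rfl) t h3 (by push_cast at h2; linarith)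
  obtain ⟨m, hm⟩ := exists_nat_ge (t * (2 * w))
  exact this m t ht (by rw [mul_one_div, le_div_iff₀ (by positivity)]; exact hm)

end Pool.Agent.EB.Ad
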