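import Pool.Agent.P.MP_d1873d_pr.Ad.Field

/-! The one clock representation of the dynamics. -/

namespace Pool.Agent.EB.Ad

open MeasureTheory Set Measure
open scoped ENNReal

variable {D : ℕ}

/-- flip rate of the origin as a function of the set of plus sites -/
structure Rate (D : ℕ) where
  R : Set (V D) → ℝ
  ε : ℝ
  ε_pos : 0 < ε
  mono : Monotone R
  ge : ∀ S, ε ≤ R S
  le : ∀ S, R S ≤ 1
  loc : ∀ S S', (∀ y, nn 0 y → (y ∈ S ↔ y ∈ S')) → R S = R S'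

namespace Rate

variable (Q : Rate D)

lemma mono' {S S' : Set (V D)} (h : ∀ y, nn 0 y → y ∈ S → y ∈ S') : Q.R S ≤ Q.R S' := by
  rw [Q.loc S (S ∩ S') fun y hy => ⟨fun h1 => ⟨h1, h y hy h1⟩, fun h1 => h1.1⟩]
  exact Q.mono inter_subset_right

lemma measurable_R {Ω : Type*} [MeasurableSpace Ω] (W : Ω → Set (V D))
    (hW : ∀ v, MeasurableSet {ω | v ∈ W ω}) : Measurable fun ω => Q.R (W ω) := by
  let g : (box (0 : V D) 1 → Prop) → ℝ := fun f => Q.R {y | ∃ h : y ∈ box (0 : V D) 1, f ⟨y, h⟩}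
  have : (fun ω => Q.R (W ω)) = g ∘ fun ω i => i.1 ∈ W ω := by
    ext ω
    exact Q.loc _ _ fun y hy => by simp [nn_st hy]
  rw [this]
  exact (measurable_of_finite g).comp
    (measurable_pi_iff.2 fun i => measurableSet_setOfPred.1 (hW i))

noncomputable def rate (S : Set ((V D) × ℝ)) (x : (V D)) (s : ℝ) : ℝ := Q.R {y | (x + y, s) ∈ S}

noncomputable def Lam (S : Set ((V D) × ℝ)) (x : (V D)) (t : ℝ) : ℝ≥0∞ :=
  ∫⁻ s in Ioc 0 t, ENNReal.ofReal (Q.rate S x s)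

def G (E : (V D) → ℝ≥0∞) (S : Set ((V D) × ℝ)) : Set ((V D) × ℝ) := {p | E p.1 < Q.Lam S p.1 p.2}

def It (E : (V D) → ℝ≥0∞) : ℕ → Set ((V D) × ℝ)
  | 0 => ∅
  | n + 1 => Q.G E (It E n)

/-- the set of pairs (site, time) such that the site is plus at that time -/
def Sig (E : (V D) → ℝ≥0∞) : Set ((V D) × ℝ) := ⋃ n, Q.It E n

lemma Lam_mono' {S S' : Set ((V D) × ℝ)} {x : (V D)} {t : ℝ}
    (h : ∀ y s, nn x y → s ≤ t → (y, s) ∈ S → (y, s) ∈ S') : Q.Lam S x t ≤ Q.Lam S' x t := by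
  refine setLIntegral_mono' measurableSet_Ioc fun s hs => ENNReal.ofReal_le_ofReal ?_
  exact Q.mono' fun y hy => h _ s (by simpa using (nn_add 0 y x).2 hy) hs.2

lemma Lam_mono {S S' : Set ((V D) × ℝ)} (h : S ⊆ S') (x : (V D)) (t : ℝ) : Q.Lam S x t ≤ Q.Lam S' x t :=
  Q.Lam_mono' fun _ _ _ _ h1 => h h1

lemma Lam_time (S : Set ((V D) × ℝ)) (x : (V D)) {s t : ℝ} (h : s ≤ t) : Q.Lam S x s ≤ Q.Lam S x t :=
  lintegral_mono_set (Ioc_subset_Ioc_right h)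

lemma int_le (S : Set ((V D) × ℝ)) (x : (V D)) (a b : ℝ) :
    ∫⁻ s in Ioc a b, ENNReal.ofReal (Q.rate S x s) ≤ ENNReal.ofReal (b - a) := by
  refine (lintegral_mono (g := fun _ => 1) fun s => ENNReal.ofReal_le_one.2 (Q.le _)).trans ?_
  simp

lemma Lam_le (S : Set ((V D) × ℝ)) (x : (V D)) (t : ℝ) : Q.Lam S x t ≤ ENNReal.ofReal t := by
  simpa [Lam] using Q.int_le S x 0 t

lemma Lam_ne_top (S : Set ((V D) × ℝ)) (x : (V D)) (t : ℝ) : Q.Lam S x t ≠ ∞ :=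
  ne_top_of_le_ne_top ENNReal.ofReal_ne_top (Q.Lam_le S x t)

lemma le_Lam (S : Set ((V D) × ℝ)) (x : (V D)) (t : ℝ) : ENNReal.ofReal (Q.ε * t) ≤ Q.Lam S x t := by
  refine le_trans ?_ (lintegral_mono (f := fun _ => ENNReal.ofReal Q.ε)
    fun s => ENNReal.ofReal_le_ofReal (Q.ge _))
  simp [ENNReal.ofReal_mul Q.ε_pos.le]

lemma Lam_add (S : Set ((V D) × ℝ)) (x : (V D)) (a b : ℝ) :
    Q.Lam S x b ≤ Q.Lam S x a + ENNReal.ofReal (b - a) := by
  refine le_trans (lintegral_mono_set (t := Ioc 0 a ∪ Ioc a b) ?_)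
    ((lintegral_union_le _ _ _).trans (add_le_add le_rfl (Q.int_le S x a b)))
  intro s hs
  rcases le_or_gt s a with h | h
  · exact Or.inl ⟨hs.1, h⟩
  · exact Or.inr ⟨h, hs.2⟩

lemma It_time (E : (V D) → ℝ≥0∞) (n : ℕ) (x : (V D)) {s t : ℝ} (h : s ≤ t) (h1 : (x, s) ∈ Q.It E n) :
    (x, t) ∈ Q.It E n := by
  cases n with
  | zero => exact h1.elim
  | succ n => exact lt_of_lt_of_le h1 (Q.Lam_time _ x h)

lemma It_mono (E : (V D) → ℝ≥0∞) : Monotone (Q.It E) := by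
  refine monotone_nat_of_le_succ fun n => ?_
  induction n with
  | zero => exact empty_subset _
  | succ n ih => exact fun p hp => lt_of_lt_of_le hp (Q.Lam_mono ih _ _)

lemma It_subset (E : (V D) → ℝ≥0∞) (n : ℕ) : Q.It E n ⊆ Q.Sig E := subset_iUnion (Q.It E) n

lemma Sig_time {E : (V D) → ℝ≥0∞} {x : (V D)} {s t : ℝ} (h : s ≤ t) (h1 : (x, s) ∈ Q.Sig E) :
    (x, t) ∈ Q.Sig E := by
  obtain ⟨n, hn⟩ := mem_iUnion.1 h1
  exact Q.It_subset E n (Q.It_time E n x h hn)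

lemma rate_mono {S : Set ((V D) × ℝ)} (hS : ∀ x s t, s ≤ t → (x, s) ∈ S → (x, t) ∈ S) (x : (V D)) :
    Monotone (Q.rate S x) := fun s t h => Q.mono fun _ hy => hS _ s t h hy

lemma mem_Sig {E : (V D) → ℝ≥0∞} {x : (V D)} {t : ℝ} : (x, t) ∈ Q.Sig E ↔ E x < Q.Lam (Q.Sig E) x t := by
  constructor
  · intro h
    obtain ⟨n, hn⟩ := mem_iUnion.1 h
    cases n with
    | zero => exact hn.elim
    | succ n => exact lt_of_lt_of_le hn (Q.Lam_mono (Q.It_subset E n) _ _)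
  · intro h
    have : Q.Lam (Q.Sig E) x t ≤ ⨆ n, Q.Lam (Q.It E n) x t := by
      unfold Lam
      rw [← lintegral_iSup]
      · refine lintegral_mono fun s => ?_
        have h1 : ∀ᶠ n in Filter.atTop, ∀ y ∈ box (0 : V D) 1, (x + y, s) ∈ Q.Sig E → (x + y, s) ∈ Q.It E n := by
          rw [Filter.eventually_all_finset]
          intro y _
          by_cases h2 : (x + y, s) ∈ Q.Sig E
          · obtain ⟨n, hn⟩ := mem_iUnion.1 h2
            exact Filter.eventually_atTop.2 ⟨n, fun k hk _ => Q.It_mono E hk hn⟩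
          · simp [h2]
        obtain ⟨n, hn⟩ := h1.exists
        exact le_iSup_of_le n (ENNReal.ofReal_le_ofReal
          (Q.mono' fun y hy => hn y (by simpa using nn_st hy)))
      · intro n
        exact (Q.rate_mono (fun x s t h => Q.It_time E n x h) x).measurable.ennreal_ofReal
      · intro n k hk s
        exact ENNReal.ofReal_le_ofReal (Q.mono fun y hy => Q.It_mono E hk hy)
    obtain ⟨n, hn⟩ := lt_iSup_iff.1 (h.trans_le this)
    exact Q.It_subset E (n + 1) hn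

lemma Sig_ind {E : (V D) → ℝ≥0∞} {P : Set ((V D) × ℝ)}
    (h : ∀ S ⊆ P, S ⊆ Q.Sig E → ∀ x t, E x < Q.Lam S x t → (x, t) ∈ P) : Q.Sig E ⊆ P := by
  refine iUnion_subset fun n => ?_
  induction n with
  | zero => exact empty_subset _
  | succ n ih => exact fun p hp => h _ ih (Q.It_subset E n) p.1 p.2 hp

lemma Sig_anti {E E' : (V D) → ℝ≥0∞} (h : ∀ x, E x ≤ E' x) : Q.Sig E' ⊆ Q.Sig E :=
  Q.Sig_ind fun _ h1 _ x t h2 => Q.mem_Sig.2 ((h x).trans_lt (h2.trans_le (Q.Lam_mono h1 x t)))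

lemma notMem_of_le {E : (V D) → ℝ≥0∞} {x : (V D)} {t : ℝ} (h : ENNReal.ofReal t ≤ E x) :
    (x, t) ∉ Q.Sig E := fun h1 => absurd ((Q.mem_Sig.1 h1).trans_le (Q.Lam_le _ _ _)) (not_lt.2 h)

lemma mem_of_lt {E : (V D) → ℝ≥0∞} {x : (V D)} {t : ℝ} (h : E x < ENNReal.ofReal (Q.ε * t)) :
    (x, t) ∈ Q.Sig E := Q.mem_Sig.2 (h.trans_le (Q.le_Lam _ _ _))

lemma notMem_zero (E : (V D) → ℝ≥0∞) (x : (V D)) {t : ℝ} (h : t ≤ 0) : (x, t) ∉ Q.Sig E :=
  Q.notMem_of_le (by simp [ENNReal.ofReal_of_nonpos h])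

lemma Lam_scale {a : ℝ} (ha : 0 < a) (S : Set ((V D) × ℝ)) (x : (V D)) (t : ℝ) :
    Q.Lam {p | (p.1, a * p.2) ∈ S} x t = (ENNReal.ofReal a)⁻¹ * Q.Lam S x (a * t) := by
  unfold Lam
  rw [← lintegral_indicator measurableSet_Ioc, ← lintegral_indicator measurableSet_Ioc,
    ← ENNReal.ofReal_inv_of_pos ha, ← abs_of_pos (inv_pos.2 ha), ← smul_eq_mul,
    ← lintegral_smul_measure, ← Real.map_volume_mul_left ha.ne']
  have := lintegral_map_equiv (μ := volume)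
    ((Ioc 0 (a * t)).indicator fun s => ENNReal.ofReal (Q.rate S x s))
    (Homeomorph.mulLeft₀ a ha.ne').toMeasurableEquiv
  refine Eq.trans (lintegral_congr fun s => ?_) this.symm
  change _ = (Ioc 0 (a * t)).indicator _ (a * s)
  by_cases hs : s ∈ Ioc 0 t
  · rw [indicator_of_mem hs, indicator_of_mem (by exact ⟨mul_pos ha hs.1,
      mul_le_mul_of_nonneg_left hs.2 ha.le⟩)]
    rfl
  · rw [indicator_of_notMem hs, indicator_of_notMem fun h : a * s ∈ Ioc 0 (a * t) =>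
      hs ⟨(mul_pos_iff_of_pos_left ha).1 h.1, le_of_mul_le_mul_left h.2 ha⟩]

lemma Sig_scale {a : ℝ} (ha : 0 < a) (E : (V D) → ℝ≥0∞) (x : (V D)) (t : ℝ) :
    (x, t) ∈ Q.Sig (fun y => E y / ENNReal.ofReal a) ↔ (x, a * t) ∈ Q.Sig E := by
  have : ∀ n, Q.It (fun y => E y / ENNReal.ofReal a) n = {p | (p.1, a * p.2) ∈ Q.It E n} := by
    intro n
    induction n with
    | zero => rfl
    | succ n ih =>
      ext p
      simp only [It, G, ih, mem_ofPred_eq, Q.Lam_scale ha]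
      rw [div_eq_mul_inv, mul_comm, ENNReal.mul_lt_mul_iff_right (by simp) (by simpa using ha)]
  simp only [Sig, mem_iUnion, this, mem_ofPred_eq]

lemma Sig_comp (φ : (V D) → (V D))
    (h : ∀ S x s, Q.rate {p | (φ p.1, p.2) ∈ S} x s = Q.rate S (φ x) s) (E : (V D) → ℝ≥0∞) (x : (V D))
    (t : ℝ) : (x, t) ∈ Q.Sig (fun y => E (φ y)) ↔ (φ x, t) ∈ Q.Sig E := by
  have : ∀ n, Q.It (fun y => E (φ y)) n = {p | (φ p.1, p.2) ∈ Q.It E n} := by
    intro n
    induction n with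
    | zero => rfl
    | succ n ih =>
      ext p
      simp only [It, G, ih, mem_ofPred_eq, Lam, h]
  simp only [Sig, mem_iUnion, this, mem_ofPred_eq]

lemma Sig_sh (v : (V D)) (E : (V D) → ℝ≥0∞) (x : (V D)) (t : ℝ) :
    (x, t) ∈ Q.Sig (sh v E) ↔ (v + x, t) ∈ Q.Sig E :=
  Q.Sig_comp (fun y => v + y) (fun S x s => by simp [rate, add_assoc]) E x t

/-- freezing the sites of `A` -/
noncomputable def frz (A : Set (V D)) (E : (V D) → ℝ≥0∞) : (V D) → ℝ≥0∞ := pw A (fun _ => ∞) E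

lemma le_frz (A : Set (V D)) (E : (V D) → ℝ≥0∞) (x : (V D)) : E x ≤ frz A E x := by
  unfold frz pw; split_ifs <;> simp

lemma frz_subset (A : Set (V D)) (E : (V D) → ℝ≥0∞) : Q.Sig (frz A E) ⊆ Q.Sig E := Q.Sig_anti (le_frz A E)

lemma notMem_frz {A : Set (V D)} (E : (V D) → ℝ≥0∞) {x : (V D)} (hx : x ∈ A) (t : ℝ) :
    (x, t) ∉ Q.Sig (frz A E) := Q.notMem_of_le (by simp [frz, pw_mem _ _ hx])

lemma frz_pw (A : Set (V D)) (E E' : (V D) → ℝ≥0∞) : frz A (pw A E E') = frz A E' := by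
  ext x; unfold frz pw; split_ifs <;> rfl

lemma freeze {A : Set (V D)} {E : (V D) → ℝ≥0∞} {a : ℝ}
    (h : ∀ y ∈ A, Q.Lam (Q.Sig (frz A E)) y a ≤ E y) {x : (V D)} {s : ℝ} (hs : s ≤ a)
    (hx : (x, s) ∈ Q.Sig E) : (x, s) ∈ Q.Sig (frz A E) := by
  refine Q.Sig_ind (P := {p | p.2 ≤ a → p ∈ Q.Sig (frz A E)}) ?_ hx hs
  intro S h1 _ x t h2 ht
  have h3 := h2.trans_le (Q.Lam_mono' (S' := Q.Sig (frz A E)) fun y s _ hs hy => h1 hy (hs.trans ht))
  by_cases hA : x ∈ A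
  · exact absurd (h3.trans_le (Q.Lam_time _ x ht)) (not_lt.2 (h x hA))
  · exact Q.mem_Sig.2 (by rwa [frz, pw_not _ _ hA])

lemma freeze_iff {A : Set (V D)} {E : (V D) → ℝ≥0∞} {a : ℝ} :
    (∀ y ∈ A, (y, a) ∉ Q.Sig E) ↔ ∀ y ∈ A, Q.Lam (Q.Sig (frz A E)) y a ≤ E y := by
  constructor
  · intro h y hy
    have := h y hy
    rw [Q.mem_Sig, not_lt] at this
    exact (Q.Lam_mono (Q.frz_subset A E) y a).trans this
  · intro h y hy h1
    exact Q.notMem_frz E hy a (Q.freeze h le_rfl h1)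

lemma Lam_frz {A : Set (V D)} {E : (V D) → ℝ≥0∞} {a : ℝ} (h : ∀ y ∈ A, (y, a) ∉ Q.Sig E) (x : (V D)) :
    Q.Lam (Q.Sig E) x a = Q.Lam (Q.Sig (frz A E)) x a :=
  le_antisymm (Q.Lam_mono' fun _ _ _ hs hy => Q.freeze (Q.freeze_iff.1 h) hs hy)
    (Q.Lam_mono (Q.frz_subset A E) x a)

section meas
variable {Ω : Type*} [MeasurableSpace Ω]

lemma measurable_rate (S : Ω → Set ((V D) × ℝ)) (hS : ∀ x, MeasurableSet {p : Ω × ℝ | (x, p.2) ∈ S p.1})
    (x : (V D)) : Measurable fun p : Ω × ℝ => Q.rate (S p.1) x p.2 :=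
  Q.measurable_R _ fun v => hS (x + v)

lemma measurable_Lam (S : Ω → Set ((V D) × ℝ)) (hS : ∀ x, MeasurableSet {p : Ω × ℝ | (x, p.2) ∈ S p.1})
    (x : (V D)) : Measurable fun p : Ω × ℝ => Q.Lam (S p.1) x p.2 := by
  have h1 : Measurable fun q : (Ω × ℝ) × ℝ => {q : (Ω × ℝ) × ℝ | q.2 ∈ Ioc 0 q.1.2}.indicator
      (fun q => ENNReal.ofReal (Q.rate (S q.1.1) x q.2)) q :=
    ((Q.measurable_rate S hS x).comp (measurable_fst.fst.prodMk measurable_snd)).ennreal_ofReal.indicator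
      ((measurableSet_lt measurable_const measurable_snd).inter
        (measurableSet_le measurable_snd measurable_fst.snd))
  convert h1.lintegral_prod_right' (ν := volume) using 1
  ext p
  unfold Lam
  rw [← lintegral_indicator measurableSet_Ioc]
  rfl

lemma measurableSet_Sig2 (x : (V D)) :
    MeasurableSet {p : ((V D) → ℝ≥0∞) × ℝ | (x, p.2) ∈ Q.Sig p.1} := by
  have : ∀ n x, MeasurableSet {p : ((V D) → ℝ≥0∞) × ℝ | (x, p.2) ∈ Q.It p.1 n} := by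
    intro n
    induction n with
    | zero => intro x; exact MeasurableSet.empty
    | succ n ih =>
      intro x
      exact measurableSet_lt ((measurable_pi_apply x).comp measurable_fst)
        (Q.measurable_Lam (fun E => Q.It E n) ih x)
  convert MeasurableSet.iUnion fun n => this n x using 1
  ext p; simp [Sig]

lemma measurableSet_Sig (x : (V D)) (t : ℝ) : MeasurableSet {E : (V D) → ℝ≥0∞ | (x, t) ∈ Q.Sig E} :=
  measurable_prodMk_right (Q.measurableSet_Sig2 x)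

lemma measurable_frz (A : Set (V D)) : Measurable (frz A) := measurable_pw _ measurable_const measurable_id

lemma measurable_Lam_frz (A : Set (V D)) (x : (V D)) :
    Measurable fun p : ((V D) → ℝ≥0∞) × ℝ => Q.Lam (Q.Sig (frz A p.1)) x p.2 :=
  (Q.measurable_Lam Q.Sig Q.measurableSet_Sig2 x).comp
    (((measurable_frz A).comp measurable_fst).prodMk measurable_snd)

end meas

/-- agreement of the two evolutions propagates through a time window without long chains of flips -/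
lemma agree_step {E E' : (V D) → ℝ≥0∞} {G0 : Set (V D)} (hD : ∀ y ∈ G0, E y = E' y) {a b : ℝ} {x : (V D)} {l : ℕ}
    (hx : ∀ y, d x y ≤ l → y ∈ G0)
    (ha : ∀ y, d x y ≤ l → ∀ s ≤ a, (y, s) ∈ Q.Sig E → (y, s) ∈ Q.Sig E')
    (hW : ¬ Arm st {y | y ∈ G0 ∧ (y, a) ∉ Q.Sig E ∧ (y, b) ∈ Q.Sig E} x l) :
    ∀ s ≤ b, (x, s) ∈ Q.Sig E → (x, s) ∈ Q.Sig E' := by
  set W := {y | y ∈ G0 ∧ (y, a) ∉ Q.Sig E ∧ (y, b) ∈ Q.Sig E} with hWd
  have h1 : ∀ y, d x y ≤ l → y ∉ W → ∀ s ≤ b, (y, s) ∈ Q.Sig E → (y, s) ∈ Q.Sig E' := by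
    intro y hy hw s hs h
    rcases le_total s a with h2 | h2
    · exact ha y hy s h2 h
    · have : (y, a) ∈ Q.Sig E := by
        by_contra h3
        exact hw ⟨hx y hy, h3, Q.Sig_time hs h⟩
      exact Q.Sig_time h2 (ha y hy a le_rfl this)
  intro s hs h
  by_cases hxW : x ∈ W
  swap
  · exact h1 x (by simp) hxW s hs h
  refine Q.Sig_ind (P := {p | Conn st W x p.1 → p.2 ≤ b → p ∈ Q.Sig E'}) ?_ h (Conn.refl hxW) hs
  intro S h2 h3 y t h4 hy ht
  have h5 : d x y < l := by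
    by_contra h6
    exact hW ⟨y, not_lt.1 h6, hy⟩
  rw [Q.mem_Sig, ← hD y hy.right.1]
  refine h4.trans_le (Q.Lam_mono' fun z s hz hs hS => ?_)
  by_cases hzW : z ∈ W
  · exact h2 hS (hy.tail (nn_st hz) hzW) (hs.trans ht)
  · have := d_tri x y z
    have := nn_st hz
    exact h1 z (by omega) hzW s (hs.trans ht) (h3 hS)

end Rate

end Pool.Agent.EB.Ad
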