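import Pool.Agent.P.MP_d1873d_pr.Ad.Lin

/-! The exploration algorithm and the resulting variance bound for the one arm event. -/

namespace Pool.Agent.EB.Ad

open MeasureTheory Set Measure
open scoped ENNReal

variable {D : ℕ}

namespace Fld

variable {X : Type} [MeasurableSpace X] (F : Fld D X) (ρ n k : ℕ)

omit [MeasurableSpace X] in
lemma cut_cut_ge {ρ j : ℕ} (h : ρ ≤ j) (E : (V D) → X) (c c' : X) : cut ρ (cut j E c) c' = cut ρ E c' := by
  ext y
  by_cases hy : d 0 y < ρ
  · simp [cut, pw, hy, hy.trans_le h]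
  · simp [cut, pw, hy]

omit [MeasurableSpace X] in
lemma cut_cut_le {ρ j : ℕ} (h : j ≤ ρ) (E : (V D) → X) (c : X) : cut ρ (cut j E c) c = cut j E c := by
  ext y
  by_cases hy : d 0 y < ρ
  · simp [cut, pw, hy]
  · simp [cut, pw, hy, show ¬ d 0 y < j by omega]

lemma unk_trunc (j : ℕ) : (F.trunc ρ).Unk j ⊆ F.Unk j := by
  rintro E ⟨h1, h2⟩
  change cut ρ (cut j E F.hi) F.hi ∈ F.O at h1
  change cut ρ (cut j E F.lo) F.hi ∉ F.O at h2
  rcases le_total ρ j with h | h
  · rw [cut_cut_ge h] at h1 h2; exact absurd h1 h2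
  · rw [cut_cut_le h] at h1
    exact ⟨h1, fun h3 => h2 (F.up _ _ (F.le_cut ρ _) h3)⟩

noncomputable def low (S : Finset (V D)) (E : (V D) → X) : (V D) → X := pw S E fun _ => F.lo

lemma low_le (S : Finset (V D)) (E : (V D) → X) (y : (V D)) : F.le (F.low S E y) (E y) := by
  unfold low pw; split_ifs
  · exact F.refl _
  · exact F.lo_le _

lemma low_congr {S : Finset (V D)} {E E' : (V D) → X} (h : ∀ y ∈ S, E y = E' y) :
    F.low S E = F.low S E' := by
  ext y
  unfold low pw; split_ifs with hy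
  · exact h y hy
  · rfl

def Act (S : Finset (V D)) (E : (V D) → X) (v : (V D)) : Prop :=
  d 0 v ≤ n ∧ (d 0 v = k ∨ ∃ w u, d 0 w = k ∧
    Conn F.r (opn (F.trunc ρ).O (F.low S E) ∩ {v | d 0 v ≤ n}) w u ∧ F.r u v)

def Step (S : Finset (V D)) (E : (V D) → X) (x : (V D)) : Prop :=
  ∃ v, F.Act ρ n k S E v ∧ (∀ y, d v y < d v x → y ∈ S) ∧ sh v E ∈ (F.trunc ρ).Unk (d v x)

open Classical in
noncomputable def next (S : Finset (V D)) (E : (V D) → X) : Finset (V D) :=
  S ∪ (box (0 : V D) (n + ρ)).filter (F.Step ρ n k S E)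

noncomputable def rev : ℕ → ((V D) → X) → Finset (V D)
  | 0, _ => ∅
  | j + 1, E => F.next ρ n k (rev j E) E

lemma mem_next {S : Finset (V D)} {E : (V D) → X} {x : (V D)} :
    x ∈ F.next ρ n k S E ↔ x ∈ S ∨ (d 0 x ≤ n + ρ ∧ F.Step ρ n k S E x) := by
  simp [next]

lemma rev_sub (j : ℕ) (E : (V D) → X) : F.rev ρ n k j E ⊆ box (0 : V D) (n + ρ) := by
  induction j with
  | zero => simp [rev]
  | succ j ih =>
    intro x hx
    rcases (F.mem_next ρ n k).1 hx with h | h
    · exact ih h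
    · simpa using h.1

lemma rev_mono (j : ℕ) (E : (V D) → X) : F.rev ρ n k j E ⊆ F.rev ρ n k (j + 1) E :=
  fun _ hx => (F.mem_next ρ n k).2 (Or.inl hx)

lemma step_congr {S : Finset (V D)} {E E' : (V D) → X} (h : ∀ y ∈ S, E y = E' y) {x : (V D)}
    (hs : F.Step ρ n k S E x) : F.Step ρ n k S E' x := by
  obtain ⟨v, h1, h2, h3⟩ := hs
  refine ⟨v, ?_, h2, ?_⟩
  · unfold Act at h1 ⊢
    rwa [← F.low_congr h]
  · have := fun c => trunc_congr (ρ := d v x) (E := E) (E' := E') (v := v)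
      (fun y hy => h y (h2 y hy)) c
    unfold Unk at h3 ⊢
    simpa only [mem_ofPred_eq, ← this] using h3

lemma next_congr {S : Finset (V D)} {E E' : (V D) → X} (h : ∀ y ∈ S, E y = E' y) :
    F.next ρ n k S E = F.next ρ n k S E' := by
  ext x
  simp only [mem_next]
  exact or_congr Iff.rfl (and_congr Iff.rfl ⟨F.step_congr ρ n k h,
    F.step_congr ρ n k fun y hy => (h y hy).symm⟩)

lemma measurableSet_step (S : Finset (V D)) (x : (V D)) : MeasurableSet {E | F.Step ρ n k S E x} := by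
  have ml : Measurable (F.low S) := measurable_pw _ measurable_id measurable_const
  have mA : ∀ v, MeasurableSet {E | F.Act ρ n k S E v} := by
    intro v
    have : {E | F.Act ρ n k S E v} = {_E | d 0 v ≤ n} ∩ ({_E | d 0 v = k} ∪ ⋃ w, ⋃ u,
        {_E | d 0 w = k} ∩
        ({E | Conn F.r (opn (F.trunc ρ).O (F.low S E) ∩ {v | d 0 v ≤ n}) w u} ∩ {_E | F.r u v})) := by
      ext E; simp [Act]
    rw [this]
    refine (MeasurableSet.const _).inter ((MeasurableSet.const _).union
      (MeasurableSet.iUnion fun w => MeasurableSet.iUnion fun u => (MeasurableSet.const _).inter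
        (MeasurableSet.inter ?_ (MeasurableSet.const _))))
    exact measurableSet_conn _ (fun v => (ml (measurableSet_opn (F.trunc ρ).meas v)).inter
      (MeasurableSet.const _)) _ _ _
  have : {E | F.Step ρ n k S E x} = ⋃ v, {E | F.Act ρ n k S E v} ∩
      ({_E | ∀ y, d v y < d v x → y ∈ S} ∩ sh v ⁻¹' (F.trunc ρ).Unk (d v x)) := by
    ext E; simp [Step]
  rw [this]
  exact MeasurableSet.iUnion fun v => (mA v).inter ((MeasurableSet.const _).inter
    (measurable_sh v ((F.trunc ρ).measurableSet_unk _)))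

lemma measurableSet_rev (j : ℕ) : ∀ s, MeasurableSet {E | F.rev ρ n k j E = s} := by
  induction j with
  | zero => intro s; exact MeasurableSet.const (∅ = s)
  | succ j ih =>
    intro s'
    have : {E | F.rev ρ n k (j + 1) E = s'} = ⋃ s, {E | F.rev ρ n k j E = s} ∩
        ⋂ x, {E | x ∈ s ∨ (d 0 x ≤ n + ρ ∧ F.Step ρ n k s E x) ↔ x ∈ s'} := by
      ext E
      simp only [mem_ofPred_eq, mem_iUnion, mem_inter_iff, mem_iInter, rev,
        Finset.ext_iff, mem_next]
      constructor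
      · intro h; exact ⟨_, fun _ => Iff.rfl, h⟩
      · rintro ⟨s, h1, h2⟩
        have : F.rev ρ n k j E = s := Finset.ext h1
        subst this; exact h2
    rw [this]
    refine MeasurableSet.iUnion fun s => (ih s).inter (MeasurableSet.iInter fun x => ?_)
    have m1 : MeasurableSet {E | x ∈ s ∨ (d 0 x ≤ n + ρ ∧ F.Step ρ n k s E x)} :=
      (MeasurableSet.const _).union ((MeasurableSet.const _).inter (F.measurableSet_step ρ n k s x))
    by_cases hx : x ∈ s'
    · simpa [hx] using m1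
    · convert m1.compl using 1
      ext E; simp only [hx, iff_false, mem_ofPred_eq, mem_compl_iff]

lemma rev_fix (E : (V D) → X) : F.next ρ n k (F.rev ρ n k ((box (0 : V D) (n + ρ)).card + 1) E) E =
    F.rev ρ n k ((box (0 : V D) (n + ρ)).card + 1) E := by
  have : ∀ j, j ≤ (F.rev ρ n k j E).card ∨
      F.next ρ n k (F.rev ρ n k j E) E = F.rev ρ n k j E := by
    intro j
    induction j with
    | zero => exact Or.inl (Nat.zero_le _)
    | succ j ih =>
      by_cases h : F.next ρ n k (F.rev ρ n k j E) E = F.rev ρ n k j E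
      · right; simp only [rev, h]
      · left
        have h1 := ih.resolve_right h
        have h2 : F.rev ρ n k j E ⊂ F.rev ρ n k (j + 1) E :=
          ⟨F.rev_mono ρ n k j E, fun h3 => h (Finset.Subset.antisymm h3 (F.rev_mono ρ n k j E))⟩
        have := Finset.card_lt_card h2
        omega
  refine (this _).resolve_left fun h => ?_
  have := Finset.card_le_card (F.rev_sub ρ n k ((box (0 : V D) (n + ρ)).card + 1) E)
  omega

lemma known {S : Finset (V D)} {E : (V D) → X} (hfix : F.next ρ n k S E = S) {v : (V D)}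
    (hv : F.Act ρ n k S E v) (ho : v ∈ opn (F.trunc ρ).O E) :
    v ∈ opn (F.trunc ρ).O (F.low S E) := by
  have : ∀ j ≤ ρ, (∀ y, d v y < j → y ∈ S) ∨ v ∈ opn (F.trunc ρ).O (F.low S E) := by
    intro j
    induction j with
    | zero => intro _; left; intro y hy; omega
    | succ j ih =>
      intro hj
      rcases ih (by omega) with h | h
      swap
      · exact Or.inr h
      by_cases hu : sh v E ∈ (F.trunc ρ).Unk j
      · left
        intro y hy
        rcases Nat.lt_succ_iff_lt_or_eq.1 hy with h1 | h1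
        · exact h y h1
        · rw [← hfix, mem_next]
          have := d_tri 0 v y
          have := hv.1
          exact Or.inr ⟨by omega, v, hv, by rwa [h1], by rwa [h1]⟩
      · right
        have h1 : cut j (sh v E) F.lo ∈ (F.trunc ρ).O := by
          by_contra h2
          exact hu ⟨(F.trunc ρ).up _ _ (F.le_cut j _) ho, h2⟩
        refine (F.trunc ρ).up _ _ (fun y => ?_) h1
        have h2 : cut j (sh v E) F.lo = cut j (sh v (F.low S E)) F.lo :=
          trunc_congr (fun y hy => (pw_mem _ _ (by exact h y hy)).symm) _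
        rw [h2]
        exact F.cut_le j _ y
  rcases this ρ le_rfl with h | h
  · have h2 : cut ρ (sh v E) F.hi = cut ρ (sh v (F.low S E)) F.hi :=
      trunc_congr (fun y hy => (pw_mem _ _ (by exact h y hy)).symm) _
    change cut ρ (sh v (F.low S E)) F.hi ∈ F.O
    rw [← h2]; exact ho
  · exact h

lemma determined (hk : k ≤ n) {S : Finset (V D)} {E E' : (V D) → X} (hfix : F.next ρ n k S E = S)
    (hE : E ∈ (F.trunc ρ).ArmE 0 n) (he : ∀ y ∈ S, E y = E' y) : E' ∈ (F.trunc ρ).ArmE 0 n := by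
  obtain ⟨b, h1, h2⟩ := hE
  obtain ⟨u, h3, h4⟩ := h2.hitD F.r_near 0 n (by simp) h1
  obtain ⟨w, h5, h6⟩ := h4.hitD F.r_near 0 k (by simp) (by omega)
  have h7 := h6.mono inter_subset_left
  have key : ∀ v, Conn F.r (opn (F.trunc ρ).O E ∩ {v | d 0 v ≤ n}) w v →
      Conn F.r (opn (F.trunc ρ).O (F.low S E) ∩ {v | d 0 v ≤ n}) w v := by
    intro v hv
    refine hv.ind (Conn.refl ⟨F.known ρ n k hfix ⟨hv.1.2, Or.inl h5⟩ hv.1.1, hv.1.2⟩)
      fun a b _ ih h8 h9 => ih.tail h8 ⟨F.known ρ n k hfix ⟨h9.2, Or.inr ⟨w, a, h5, ih, h8⟩⟩ h9.1,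
        h9.2⟩
  have h8 := ((key 0 (h7.symm F.r_symm)).symm F.r_symm).trans (key u ((h7.symm F.r_symm).trans h4))
  refine ⟨u, h3.ge, h8.mono fun v hv => ?_⟩
  have h9 := hv.1
  rw [F.low_congr he] at h9
  exact (F.trunc ρ).opn_mono (F.low_le S E') h9

lemma rev_imp (j : ℕ) (E : V D → X) {x : V D} (hx : x ∈ F.rev ρ n k j E) :
    ∃ v ∈ box (0 : V D) n, sh v E ∈ F.Unk (d x v) ∧ (d 0 v = k ∨
      sh v E ∈ (F.trunc ρ).GE (d x v) (k - d 0 v + (d 0 v - k) - 1)) := by
  induction j with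
  | zero => simp [rev] at hx
  | succ j ih =>
    rcases (F.mem_next ρ n k).1 hx with h | ⟨-, v, ⟨h1, h2⟩, -, h3⟩
    · exact ih h
    refine ⟨v, by simpa using h1, by rw [d_comm]; exact F.unk_trunc ρ _ h3, ?_⟩
    rcases h2 with h2 | ⟨w, u, h4, h5, h6⟩
    · exact Or.inl h2
    · right
      have h7 := F.r_near _ _ h6
      have := d_tri 0 v w
      have := d_tri 0 w v
      have := d_comm u v
      have := d_comm w v
      exact (F.trunc ρ).mem_GE (u := u) (w := w) (by omega) (by omega)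
        ((h5.symm F.r_symm).mono fun y hy => (F.trunc ρ).opn_mono (F.low_le _ E) hy.1)

lemma dep_arm : Dep (box (0 : V D) (n + ρ) : Finset (V D)) ((F.trunc ρ).ArmE 0 n) := by
  rintro E E' he ⟨b, h1, h2⟩
  obtain ⟨u, h3, h4⟩ := h2.hitD F.r_near 0 n (by simp) h1
  refine ⟨u, h3.ge, h4.mono fun v hv => ?_⟩
  have h5 : cut ρ (sh v E) F.hi ∈ F.O := hv.1
  change cut ρ (sh v E') F.hi ∈ F.O
  rwa [← trunc_congr]
  intro y hy
  refine he _ ?_
  have h5 : d 0 v ≤ n := hv.2
  have := d_tri 0 v y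
  simp only [Finset.mem_coe, mem_box]
  omega

/-- the variance bound with constant `B` -/
def VB (m : Measure X) (B : ℝ) : Prop := ∀ ρ n : ℕ,
  n * ((F.trunc ρ).th m n * (1 - (F.trunc ρ).th m n)) ≤
    6 * B * (1 + ∑ i ∈ Finset.range n, (F.trunc ρ).th m i) *
      ∑ x ∈ box (0 : V D) (n + ρ), (infl m ((F.trunc ρ).ArmE 0 n) x).toReal

end Fld

theorem variance_bound {X : Type} [MeasurableSpace X] {u : ℕ → ℝ} (hu : ExpDecay u) :
    ∃ B > 0, ∀ (F : Fld D X) (m : Measure X) [IsProbabilityMeasure m],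
      (∀ j, (Pm (V D) m).real (F.Unk j) ≤ u j) → F.VB m B := by
  obtain ⟨C, q, C0, q0, q1, hq⟩ := hu
  obtain ⟨A, A0, hA⟩ := sum_G (D := D) (X := X) C0 q0 q1
  obtain ⟨B, B0, hB⟩ := sum_ring (D := D) (fun j => (1 + A) * ((j + 1) ^ (D + 1) * (C * q ^ j)))
    (fun _ => by positivity) ((ExpDecay.poly (g := fun n => C * q ^ n)
      ⟨C, q, C0, q0, q1, fun _ => le_rfl⟩ (D + 1)).const_mul (by positivity))
  refine ⟨B, B0, fun F m _ hu' ρ n => ?_⟩
  have hu : ∀ j, (Pm (V D) m).real (F.Unk j) ≤ C * q ^ j := fun j => (hu' j).trans (hq j)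
  have hG := hA (F.trunc ρ) m (fun j => (rmono (F.unk_trunc ρ j)).trans (hu j)) n
  set N := (box (0 : V D) (n + ρ)).card + 1 with hN
  set Z := 1 + ∑ i ∈ Finset.range n, (F.trunc ρ).th m i with hZ
  have Z1 : 1 ≤ Z := le_add_of_nonneg_right (Finset.sum_nonneg fun _ _ => (F.trunc ρ).th_nonneg m _)
  have G0 : ∀ j k, 0 ≤ (F.trunc ρ).G m j k := fun _ _ => measureReal_nonneg
  have h1 : ∀ k ∈ Finset.range n, (F.trunc ρ).th m n * (1 - (F.trunc ρ).th m n) ≤
      ∑ x ∈ box (0 : V D) (n + ρ), (Pm (V D) m).real {E | x ∈ F.rev ρ n k N E} *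
        (infl m ((F.trunc ρ).ArmE 0 n) x).toReal := by
    intro k hk
    have := osss m ((F.trunc ρ).measurableSet_armE 0 n) (box (0 : V D) (n + ρ)) (F.rev ρ n k) N
      (fun _ => rfl) (F.rev_mono ρ n k) (F.rev_sub ρ n k N)
      (fun j E E' h1 h2 => by
        simp only [Fld.rev]; rw [← h2]; exact F.next_congr ρ n k h1)
      (F.measurableSet_rev ρ n k)
      (fun E E' h1 h2 => F.determined ρ n k (Finset.mem_range.1 hk).le (F.rev_fix ρ n k E) h1 h2)
    have h2 := ENNReal.toReal_mono (ENNReal.sum_ne_top.2 fun x _ =>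
      ENNReal.mul_ne_top (measure_ne_top _ _) (infl_ne_top m _ x)) this
    rw [ENNReal.toReal_sum fun x _ =>
      ENNReal.mul_ne_top (measure_ne_top _ _) (infl_ne_top m _ x), ENNReal.toReal_mul] at h2
    simp only [ENNReal.toReal_mul, ← measureReal_def] at h2
    rwa [probReal_compl_eq_one_sub ((F.trunc ρ).measurableSet_armE 0 n)] at h2
  have h2 : ∀ x, ∑ k ∈ Finset.range n, (Pm (V D) m).real {E | x ∈ F.rev ρ n k N E} ≤
      6 * B * Z := by
    intro x
    have h3 : ∀ k ∈ Finset.range n, (Pm (V D) m).real {E | x ∈ F.rev ρ n k N E} ≤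
        ∑ v ∈ box (0 : V D) n, (if d 0 v = k then 1 else
          3 * (F.trunc ρ).G m (d x v) (k - d 0 v + (d 0 v - k) - 1)) * (C * q ^ d x v) := by
      intro k _
      refine le_trans (rmono (t := ⋃ v ∈ box (0 : V D) n, {E | sh v E ∈ F.Unk (d x v) ∧
        (d 0 v = k ∨ sh v E ∈ (F.trunc ρ).GE (d x v) (k - d 0 v + (d 0 v - k) - 1))}) ?_)
        ((measureReal_biUnion_finset_le _ _).trans (Finset.sum_le_sum fun v _ => ?_))
      · intro E hE
        simpa only [mem_iUnion, exists_prop, mem_ofPred_eq] using F.rev_imp ρ n k N E hE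
      · split_ifs with h
        · refine (rmono (t := sh v ⁻¹' F.Unk (d x v)) fun E hE => hE.1).trans ?_
          rw [(mp_sh m v).measureReal_preimage (F.measurableSet_unk _).nullMeasurableSet, one_mul]
          exact hu _
        · refine (rmono (t := sh v ⁻¹' F.Unk (d x v) ∩ sh v ⁻¹' (F.trunc ρ).GE (d x v)
            (k - d 0 v + (d 0 v - k) - 1)) fun E hE => ⟨hE.1, hE.2.resolve_left h⟩).trans ?_
          rw [F.prob_inter (F.trunc ρ) m fun _ hy => hy, mul_comm]
          exact mul_le_mul (by linarith [G0 (d x v) (k - d 0 v + (d 0 v - k) - 1)]) (hu _)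
            measureReal_nonneg (mul_nonneg (by norm_num) (G0 _ _))
    refine (Finset.sum_le_sum h3).trans ?_
    rw [Finset.sum_comm]
    simp only [← Finset.sum_mul]
    refine (Finset.sum_le_sum (g := fun v =>
      6 * Z * ((1 + A) * ((d x v + 1) ^ (D + 1) * (C * q ^ d x v)))) fun v hv => ?_).trans ?_
    · have a1 := sum_act ((F.trunc ρ).G m (d x v)) (G0 _) n (d 0 v) (by simpa using hv)
      have a2 := hG (d x v)
      have a3 : (1 : ℝ) ≤ (d x v + 1) ^ (D + 1) * Z :=
        one_le_mul_of_one_le_of_one_le (one_le_pow₀ (by simp)) Z1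
      refine (mul_le_mul_of_nonneg_right (c := 6 * ((1 + A) * ((d x v + 1) ^ (D + 1) * Z)))
        (a1.trans (by linarith)) (by positivity)).trans (le_of_eq (by ring))
    · rw [← Finset.mul_sum, mul_right_comm 6 B Z]
      exact mul_le_mul_of_nonneg_left (hB _ x) (by positivity)
  have h4 := Finset.sum_le_sum h1
  rw [Finset.sum_const, Finset.card_range, nsmul_eq_mul, Finset.sum_comm] at h4
  refine h4.trans ?_
  rw [Finset.mul_sum]
  refine Finset.sum_le_sum fun x _ => ?_
  rw [← Finset.sum_mul]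
  exact mul_le_mul_of_nonneg_right (h2 x) ENNReal.toReal_nonneg

end Pool.Agent.EB.Ad
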