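import Pool.Agent.P.MP_d1873d_pr.Ad.Cyl
import Pool.Agent.P.MP_d1873d_pr.Ad.Local

/-! The one clock representation solves the forward equation. -/

namespace Pool.Agent.EB.Ad

open MeasureTheory Set Measure Filter Topology
open scoped ENNReal

variable {D : ℕ}

variable {lam : ((Ball D) → Bool) → ℝ}

open Classical in
noncomputable def rOf (lam : ((Ball D) → Bool) → ℝ) (S : Set (V D)) : ℝ :=
  lam fun y => decide (y.1 ≠ 0 ∧ y.1 ∈ S)

noncomputable def Elliptic.rate (h : Elliptic lam) : Rate D where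
  R := rOf lam
  ε := lam fun _ => false
  ε_pos := h.pos
  mono S S' hS := h.mono fun y => by
    simp only [Bool.le_iff_imp, decide_eq_true_eq]
    exact fun h1 => ⟨h1.1, hS h1.2⟩
  ge S := h.mono fun _ => Bool.false_le _
  le S := h.le_one _
  loc S S' hS := by
    unfold rOf
    congr 1
    ext y
    simp only [decide_eq_decide]
    exact and_congr_right fun hy => hS _ (ball_nn y hy)

namespace Rate

variable (Q : Rate D)

open Classical in
noncomputable def cfg (t : ℝ) (E : (V D) → ℝ≥0∞) : (Config D) := fun x => decide ((x, t) ∈ Q.Sig E)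

lemma measurable_cfg2 : Measurable fun p : ((V D) → ℝ≥0∞) × ℝ => Q.cfg p.2 p.1 :=
  measurable_pi_iff.2 fun x => measurable_to_bool (by
    convert Q.measurableSet_Sig2 x using 1
    ext p; simp [cfg])

lemma measurable_cfg (t : ℝ) : Measurable (Q.cfg t) :=
  Q.measurable_cfg2.comp (measurable_id.prodMk measurable_const)

lemma cfg_zero {t : ℝ} (ht : t ≤ 0) (E : (V D) → ℝ≥0∞) : Q.cfg t E = fun _ => false := by
  ext x; simp [cfg, Q.notMem_zero E x ht]

lemma rate_nonneg (S : Set ((V D) × ℝ)) (x : (V D)) (s : ℝ) : 0 ≤ Q.rate S x s :=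
  Q.ε_pos.le.trans (Q.ge _)

lemma rate_Sig_mono (E : (V D) → ℝ≥0∞) (x : (V D)) : Monotone (Q.rate (Q.Sig E) x) :=
  Q.rate_mono (fun _ _ _ h => Q.Sig_time h) x

lemma Lam_toReal (E : (V D) → ℝ≥0∞) (x : (V D)) {t : ℝ} (ht : 0 ≤ t) :
    (Q.Lam (Q.Sig E) x t).toReal = ∫ s in (0 : ℝ)..t, Q.rate (Q.Sig E) x s := by
  rw [intervalIntegral.integral_of_le ht, integral_eq_lintegral_of_nonneg_ae
    (Eventually.of_forall (Q.rate_nonneg _ x)) (Q.rate_Sig_mono E x).measurable.aestronglyMeasurable]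
  rfl

/-- probability of no flip in `A` given the clocks outside `A` -/
noncomputable def surv (A : Finset (V D)) (E : (V D) → ℝ≥0∞) (t : ℝ) : ℝ :=
  Real.exp (-∑ y ∈ A, (Q.Lam (Q.Sig (frz A E)) y t).toReal)

lemma measurable_surv (A : Finset (V D)) : Measurable fun p : ((V D) → ℝ≥0∞) × ℝ => Q.surv A p.1 p.2 :=
  (Finset.measurable_sum _ fun y _ => (Q.measurable_Lam_frz A y).ennreal_toReal).neg.exp

lemma surv_le (A : Finset (V D)) (E : (V D) → ℝ≥0∞) (t : ℝ) : Q.surv A E t ≤ 1 :=
  Real.exp_le_one_iff.2 (neg_nonpos.2 (Finset.sum_nonneg fun _ _ => ENNReal.toReal_nonneg))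

lemma surv_pos (A : Finset (V D)) (E : (V D) → ℝ≥0∞) (t : ℝ) : 0 < Q.surv A E t := Real.exp_pos _

lemma cond_exp (A : Finset (V D)) (t : ℝ) (φ : ((V D) → ℝ≥0∞) → ℝ) (mφ : Measurable φ) (h0 : ∀ E, 0 ≤ φ E) :
    ∫ E, φ (frz A E) * cyl ∅ A (Q.cfg t E) ∂Pm (V D) ex = ∫ E, φ (frz A E) * Q.surv A E t ∂Pm (V D) ex := by
  have m1 : Measurable fun E => φ (frz A E) := mφ.comp (measurable_frz (A : Set (V D)))
  have m2 : Measurable fun E => Q.surv A E t :=
    Measurable.of_uncurry_right (f := fun E t => Q.surv A E t) (Q.measurable_surv A)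
  have mL : ∀ y, Measurable fun E => Q.Lam (Q.Sig (frz A E)) y t := fun y =>
    Measurable.of_uncurry_right (f := fun E t => Q.Lam (Q.Sig (frz A E)) y t)
      (Q.measurable_Lam_frz A y)
  have m3 : Measurable fun E => cyl ∅ A (Q.cfg t E) :=
    (cyl_local _ _).measurable.comp (Q.measurable_cfg t)
  have e1 := integral_eq_lintegral_of_nonneg_ae (μ := Pm (V D) ex)
    (f := fun E => φ (frz A E) * cyl ∅ A (Q.cfg t E))
    (Eventually.of_forall fun E => mul_nonneg (h0 _) (cyl_nonneg _ _ _))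
    (m1.mul m3).aestronglyMeasurable
  have e2 := integral_eq_lintegral_of_nonneg_ae (μ := Pm (V D) ex)
    (f := fun E => φ (frz A E) * Q.surv A E t)
    (Eventually.of_forall fun E => mul_nonneg (h0 _) (Q.surv_pos A E t).le)
    (m1.mul m2).aestronglyMeasurable
  rw [e1, e2]
  refine congrArg ENNReal.toReal ?_
  have := lintegral_cond (fun _ : (V D) => ex) A (fun E => ENNReal.ofReal (φ (frz A E)))
    (fun y E => Ici (Q.Lam (Q.Sig (frz A E)) y t)) m1.ennreal_ofReal
    (fun y => measurableSet_le ((mL y).comp measurable_fst) measurable_snd)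
    (fun E E' => by rw [frz_pw]) (fun y E E' => by simp only [frz_pw])
  refine Eq.trans (lintegral_congr fun E => ?_) (this.trans (lintegral_congr fun E => ?_))
  · have h1 : (∀ y ∈ A, (y, t) ∉ Q.Sig E) ↔ ∀ y ∈ A, Q.Lam (Q.Sig (frz A E)) y t ≤ E y :=
      Q.freeze_iff (A := A)
    by_cases h2 : ∀ y ∈ A, (y, t) ∉ Q.Sig E
    · rw [indicator_of_mem (by exact h1.1 h2), cyl, if_pos (by simpa [cfg] using h2), mul_one]
    · rw [indicator_of_notMem (by exact mt h1.2 h2), cyl, if_neg (by simpa [cfg] using h2)]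
      simp
  · simp only [ex_Ici (Q.Lam_ne_top _ _ _)]
    rw [← ENNReal.ofReal_prod_of_nonneg fun _ _ => (Real.exp_pos _).le,
      ← ENNReal.ofReal_mul (h0 _), ← Real.exp_sum, Finset.sum_neg_distrib, surv]

lemma surv_int (A : Finset (V D)) {t : ℝ} (ht : 0 ≤ t) :
    ∫ E, Q.surv A E t ∂Pm (V D) ex = 1 - ∫ s in (0 : ℝ)..t,
      ∫ E, (∑ y ∈ A, Q.rate (Q.Sig (frz A E)) y s) * Q.surv A E s ∂Pm (V D) ex := by
  have h1 : ∀ E s, 0 ≤ s → Q.surv A E s =
      Real.exp (-∫ u in (0 : ℝ)..s, ∑ y ∈ A, Q.rate (Q.Sig (frz A E)) y u) := by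
    intro E s hs
    rw [intervalIntegral.integral_finsetSum fun y _ => (Q.rate_Sig_mono _ y).intervalIntegrable]
    simp only [surv, Q.Lam_toReal _ _ hs]
  have h2 : ∀ E, Q.surv A E t = 1 - ∫ s in Ioc 0 t,
      (∑ y ∈ A, Q.rate (Q.Sig (frz A E)) y s) * Q.surv A E s := by
    intro E
    rw [h1 E t ht, ftc_exp _ (fun a b hab => Finset.sum_le_sum fun y _ => Q.rate_Sig_mono _ y hab) ht,
      intervalIntegral.integral_of_le ht]
    congr 1
    exact setIntegral_congr_fun measurableSet_Ioc fun s hs => by simp only [h1 E s hs.1.le]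
  have hi : Integrable (Function.uncurry fun E s =>
      (∑ y ∈ A, Q.rate (Q.Sig (frz A E)) y s) * Q.surv A E s)
      ((Pm (V D) ex).prod (volume.restrict (Ioc 0 t))) := by
    refine Integrable.of_bound (Measurable.aestronglyMeasurable ?_) A.card
      (Eventually.of_forall fun p => ?_)
    · exact (Finset.measurable_sum _ fun y _ => (Q.measurable_rate Q.Sig Q.measurableSet_Sig2 y).comp
        (((measurable_frz (A : Set (V D))).comp measurable_fst).prodMk measurable_snd)).mul (Q.measurable_surv A)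
    · have a1 : 0 ≤ ∑ y ∈ A, Q.rate (Q.Sig (frz A p.1)) y p.2 :=
        Finset.sum_nonneg fun _ _ => Q.rate_nonneg _ _ _
      change ‖_ * _‖ ≤ _
      rw [Real.norm_of_nonneg (mul_nonneg a1 (Q.surv_pos _ _ _).le)]
      refine (mul_le_of_le_one_right a1 (Q.surv_le _ _ _)).trans ?_
      simpa [rate] using Finset.sum_le_card_nsmul A _ 1 fun y _ => Q.le _
  simp only [h2]
  have hi2 : Integrable (fun E => ∫ s in Ioc 0 t,
      (∑ y ∈ A, Q.rate (Q.Sig (frz A E)) y s) * Q.surv A E s) (Pm (V D) ex) := hi.integral_prod_left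
  rw [integral_sub (integrable_const _) hi2, integral_integral_swap hi,
    intervalIntegral.integral_of_le ht]
  simp

/-- expectation of `f` at time `t` -/
noncomputable def I (t : ℝ) (f : (Config D) → ℝ) : ℝ := ∫ E, f (Q.cfg t E) ∂Pm (V D) ex

lemma integrable_cfg {f : (Config D) → ℝ} (hf : IsLocal f) (t : ℝ) :
    Integrable (fun E => f (Q.cfg t E)) (Pm (V D) ex) := by
  obtain ⟨C, hC⟩ := hf.bdd
  exact Integrable.of_bound (hf.measurable.comp (Q.measurable_cfg t)).aestronglyMeasurable C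
    (Eventually.of_forall fun _ => hC _)

lemma I_int {f : (Config D) → ℝ} (hf : IsLocal f) (a b : ℝ) :
    IntervalIntegrable (fun s => Q.I s f) volume a b := by
  obtain ⟨C, hC⟩ := hf.bdd
  have m : StronglyMeasurable fun s => Q.I s f :=
    (hf.measurable.comp Q.measurable_cfg2).stronglyMeasurable.integral_prod_left'
  refine (intervalIntegrable_const (c := C)).mono_fun' m.aestronglyMeasurable
    (Eventually.of_forall fun s => ?_)
  simpa [I] using norm_integral_le_of_norm_le_const (μ := Pm (V D) ex) (f := fun E => f (Q.cfg s E))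
    (Eventually.of_forall fun E => hC _)

lemma I_sum {ι : Type*} (s : Finset ι) (F : ι → (Config D) → ℝ) (h : ∀ i ∈ s, IsLocal (F i)) (t : ℝ) :
    Q.I t (fun σ => ∑ i ∈ s, F i σ) = ∑ i ∈ s, Q.I t (F i) :=
  integral_finsetSum _ fun i hi => Q.integrable_cfg (h i hi) t

lemma I_sub {f g : (Config D) → ℝ} (h : IsLocal f) (h' : IsLocal g) (t : ℝ) :
    Q.I t (fun σ => f σ - g σ) = Q.I t f - Q.I t g :=
  integral_sub (Q.integrable_cfg h t) (Q.integrable_cfg h' t)

lemma I_mul (c : ℝ) (f : (Config D) → ℝ) (t : ℝ) : Q.I t (fun σ => c * f σ) = c * Q.I t f :=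
  integral_const_mul _ _

end Rate

lemma genB_cyl (lam : ((Ball D) → Bool) → ℝ) {A B : Finset (V D)} (h : A ⊆ B) (σ : (Config D)) :
    genB lam B (cyl ∅ A) σ = -1 * ∑ y ∈ A, lam (tau y σ) * cyl ∅ A σ := by
  unfold genB
  rw [← Finset.sum_subset h fun y _ hy => by simp [cyl_update, hy], Finset.mul_sum]
  exact Finset.sum_congr rfl fun y hy => by simp [cyl_update, hy]

namespace Elliptic

variable (h : Elliptic lam)

lemma lx_cyl {A : Finset (V D)} {y : (V D)} (hy : y ∈ A) (s : ℝ) (E : (V D) → ℝ≥0∞) :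
    lam (tau y (h.rate.cfg s E)) * cyl ∅ A (h.rate.cfg s E) =
      h.rate.rate (h.rate.Sig (Rate.frz A E)) y s * cyl ∅ A (h.rate.cfg s E) := by
  unfold cyl
  split_ifs with h1
  swap
  · simp
  have h2 : ∀ y ∈ (A : Set (V D)), (y, s) ∉ h.rate.Sig E := by simpa [Rate.cfg] using h1
  congr 1
  change _ = rOf lam _
  unfold rOf
  congr 1
  ext z
  simp only [tau, Rate.cfg, mem_ofPred_eq, decide_eq_decide]
  refine ⟨fun h3 => ⟨fun h4 => h2 y hy (by simpa [h4] using h3),
    h.rate.freeze (h.rate.freeze_iff.1 h2) le_rfl h3⟩, fun h3 => h.rate.frz_subset _ _ h3.2⟩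

def QB (B : Finset (V D)) (f : (Config D) → ℝ) : Prop := ∀ t, 0 ≤ t →
  h.rate.I t f = f (fun _ => false) + ∫ s in (0 : ℝ)..t, h.rate.I s (genB lam B f)

lemma QB_g {A B : Finset (V D)} (hA : A ⊆ B) : h.QB B (cyl ∅ A) := by
  intro t ht
  have a1 := h.rate.cond_exp A t (fun _ => 1) measurable_const fun _ => zero_le_one
  simp only [one_mul] at a1
  rw [Rate.I, a1, h.rate.surv_int A ht, sub_eq_add_neg, ← intervalIntegral.integral_neg]
  congr 1
  · simp [cyl]
  refine intervalIntegral.integral_congr fun s _ => ?_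
  simp only [funext (genB_cyl lam hA)]
  rw [Rate.I_mul, neg_mul, one_mul, neg_inj]
  have a2 := h.rate.cond_exp A s (fun E => ∑ y ∈ A, h.rate.rate (h.rate.Sig E) y s)
    (Finset.measurable_sum _ fun y _ => (h.rate.measurable_rate _ h.rate.measurableSet_Sig2 y).comp
      (measurable_id.prodMk measurable_const))
    fun E => Finset.sum_nonneg fun _ _ => h.rate.rate_nonneg _ _ _
  rw [← a2]
  refine integral_congr_ae (Eventually.of_forall fun E => ?_)
  simp only [Finset.sum_mul]
  exact Finset.sum_congr rfl fun y hy => (h.lx_cyl hy s E).symm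

lemma QB_sub {B : Finset (V D)} {f g : (Config D) → ℝ} (hf : IsLocal f) (hg : IsLocal g) (h1 : h.QB B f)
    (h2 : h.QB B g) : h.QB B fun σ => f σ - g σ := by
  intro t ht
  have : (genB lam B fun σ => f σ - g σ) = fun σ => genB lam B f σ - genB lam B g σ := by
    ext σ; simp only [genB, ← Finset.sum_sub_distrib]
    exact Finset.sum_congr rfl fun _ _ => by ring
  simp only [this, h.rate.I_sub hf hg, h.rate.I_sub (genB_local lam B hf) (genB_local lam B hg)]
  rw [intervalIntegral.integral_sub (h.rate.I_int (genB_local lam B hf) _ _)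
    (h.rate.I_int (genB_local lam B hg) _ _), h1 t ht, h2 t ht]
  ring

lemma QB_mul {B : Finset (V D)} {f : (Config D) → ℝ} (c : ℝ) (h1 : h.QB B f) : h.QB B fun σ => c * f σ := by
  intro t ht
  have : (genB lam B fun σ => c * f σ) = fun σ => c * genB lam B f σ := by
    ext σ; simp only [genB, Finset.mul_sum]
    exact Finset.sum_congr rfl fun _ _ => by ring
  simp only [this, h.rate.I_mul]
  rw [intervalIntegral.integral_const_mul, h1 t ht]
  ring

lemma QB_cyl {B : Finset (V D)} (S : Finset (V D)) : S ⊆ B → ∀ S' ⊆ B, h.QB B (cyl S S') := by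
  induction S using Finset.induction_on with
  | empty => exact fun _ S' hS' => h.QB_g hS'
  | insert x S hx ih =>
    intro hS S' hS'
    rw [Finset.insert_subset_iff] at hS
    rw [funext (cyl_insert x S S')]
    exact h.QB_sub (cyl_local _ _) (cyl_local _ _) (ih hS.2 _ hS')
      (ih hS.2 _ (Finset.insert_subset hS.1 hS'))

lemma QB_sum {B : Finset (V D)} {ι : Type*} (s : Finset ι) (F : ι → (Config D) → ℝ)
    (hF : ∀ i ∈ s, IsLocal (F i) ∧ h.QB B (F i)) : h.QB B fun σ => ∑ i ∈ s, F i σ := by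
  intro t ht
  have : (genB lam B fun σ => ∑ i ∈ s, F i σ) = fun σ => ∑ i ∈ s, genB lam B (F i) σ := by
    ext σ; simp only [genB, ← Finset.sum_sub_distrib, Finset.mul_sum]
    exact Finset.sum_comm
  simp only [this, h.rate.I_sum s F fun i hi => (hF i hi).1,
    h.rate.I_sum s _ fun i hi => genB_local lam B (hF i hi).1]
  rw [intervalIntegral.integral_finsetSum fun i hi => h.rate.I_int (genB_local lam B (hF i hi).1) _ _,
    ← Finset.sum_add_distrib]
  exact Finset.sum_congr rfl fun i hi => (hF i hi).2 t ht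

lemma I_eq {f : (Config D) → ℝ} (hf : IsLocal f) {t : ℝ} (ht : 0 ≤ t) :
    h.rate.I t f = f (fun _ => false) + ∫ s in (0 : ℝ)..t, h.rate.I s (gen lam f) := by
  obtain ⟨B, hB⟩ := hf
  rw [gen_eq lam hB]
  have := h.QB_sum (B := B) B.powerset (fun S σ => f (fun x => decide (x ∈ S)) * cyl S (B \ S) σ)
    fun S hS => ⟨(IsLocal.const _).op (cyl_local _ _) (· * ·),
      h.QB_mul _ (h.QB_cyl S (Finset.mem_powerset.1 hS) _ Finset.sdiff_subset)⟩
  rw [← funext (expand hB)] at this
  exact this t ht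

lemma I_cont {f : (Config D) → ℝ} (hf : IsLocal f) : Continuous fun t => h.rate.I t f := by
  have : (fun t => h.rate.I t f) = fun t =>
      f (fun _ => false) + ∫ s in (0 : ℝ)..(max t 0), h.rate.I s (gen lam f) := by
    ext t
    rcases le_total t 0 with ht | ht
    · simp [Rate.I, h.rate.cfg_zero ht, ht]
    · rw [max_eq_left ht, h.I_eq hf ht]
  rw [this]
  exact continuous_const.add ((intervalIntegral.continuous_primitive
    (h.rate.I_int (gen_local lam hf)) 0).comp (continuous_id.max continuous_const))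

/-- the law at time `t` -/
noncomputable def law (t : ℝ) : Measure (Config D) := (Pm (V D) ex).map (h.rate.cfg t)

theorem isLaw : IsLaw lam h.law where
  prob t := isProbabilityMeasure_map (h.rate.measurable_cfg t).aemeasurable
  init := by simp [law, funext (h.rate.cfg_zero le_rfl)]
  forward f hf t ht := by
    have e : ∀ g, IsLocal g → ∀ s, ∫ σ, g σ ∂h.law s = h.rate.I s g := fun g hg s =>
      integral_map (h.rate.measurable_cfg s).aemeasurable hg.measurable.aestronglyMeasurable
    simp only [e f hf, e _ (gen_local lam hf)]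
    have hc := h.I_cont (gen_local lam hf)
    have := (intervalIntegral.integral_hasDerivAt_right (h.rate.I_int (gen_local lam hf) 0 t)
      (hc.stronglyMeasurableAtFilter _ _) hc.continuousAt).const_add (f fun _ => false)
    exact this.hasDerivWithinAt.congr (fun s hs => h.I_eq hf hs) (h.I_eq hf ht)

end Elliptic

end Pool.Agent.EB.Ad
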