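import Pool.Agent.P.MP_d1873d_pr.Ad.Field

/-! Decoupling of arm events from the event that a site is not yet determined. -/

namespace Pool.Agent.EB.Ad

open MeasureTheory Set Measure
open scoped ENNReal

variable {D : ℕ}

lemma sum_ring (h : ℕ → ℝ) (h0 : ∀ i, 0 ≤ h i) (hh : ExpDecay h) :
    ∃ B > 0, ∀ (s : Finset (V D)) (x : (V D)), ∑ v ∈ s, h (d x v) ≤ B := by
  obtain ⟨B, hB0, hB⟩ := ((hh.poly D).const_mul (c := 2 ^ D) (by positivity)).sum_le
  refine ⟨B + 1, by linarith, fun s x => ?_⟩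
  obtain ⟨K, hK⟩ := bounded_of_finite s.finite_toSet x
  rw [← Finset.sum_fiberwise_of_maps_to (t := Finset.range (K + 1)) (g := d x)
    fun v hv => Finset.mem_range.2 (Nat.lt_succ_of_le (hK v hv))]
  refine le_trans (Finset.sum_le_sum fun j _ => ?_) ((hB (K + 1)).trans (by linarith))
  rw [Finset.sum_congr rfl (g := fun _ => h j) fun v hv => by rw [(Finset.mem_filter.1 hv).2],
    Finset.sum_const, nsmul_eq_mul, ← mul_assoc]
  refine mul_le_mul_of_nonneg_right ?_ (h0 j)
  have h1 : (s.filter fun v => d x v = j).card ≤ (2 * j + 1) ^ D :=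
    le_trans (Finset.card_le_card fun v hv => mem_box.2 (Finset.mem_filter.1 hv).2.le)
      (card_box x j).le
  have h2 : ((s.filter fun v => d x v = j).card : ℝ) ≤ (2 * j + 1) ^ D := by exact_mod_cast h1
  exact h2.trans (card_le_poly j)

lemma tail_ring (h : ℕ → ℝ) (hh : ExpDecay h) : ∃ K : ℕ, ∀ s : Finset (V D),
    (∀ v ∈ s, K < d 0 v) → ∑ v ∈ s, h (d 0 v) ≤ 1 / 2 := by
  obtain ⟨C, q, h0, h1, h2, h3⟩ := hh
  set r := √q with hr
  have r0 : 0 < r := Real.sqrt_pos.2 h1
  have r1 : r < 1 := (Real.sqrt_lt' one_pos).2 (by simpa using h2)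
  have rr : q = r * r := (Real.mul_self_sqrt h1.le).symm
  obtain ⟨B, B0, hB⟩ := sum_ring (D := D) (fun n => C * r ^ n) (fun _ => by positivity)
    ⟨C, r, h0, r0, r1, fun _ => le_rfl⟩
  obtain ⟨K, hK⟩ := ExpDecay.eventually_le (g := fun n => B * r ^ n)
    ⟨B, r, B0.le, r0, r1, fun _ => le_rfl⟩ (e := 1 / 2) (by norm_num)
  refine ⟨K, fun s hs => le_trans ?_ (hK K le_rfl)⟩
  refine le_trans ?_ (mul_le_mul_of_nonneg_right (hB s 0) (by positivity))
  rw [Finset.sum_mul]
  refine Finset.sum_le_sum fun v hv => (h3 _).trans ?_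
  rw [rr, mul_pow, ← mul_assoc]
  exact mul_le_mul_of_nonneg_left (pow_le_pow_of_le_one r0.le r1.le (hs v hv).le) (by positivity)

namespace Fld

variable {X : Type} [MeasurableSpace X] (F : Fld D X)

/-- the coordinates at distance `< j` from the origin are set to the top value -/
noncomputable def top (j : ℕ) (E : V D → X) : V D → X := pw {y | d 0 y < j} (fun _ => F.hi) E

lemma le_top (j : ℕ) (E : V D → X) (y : V D) : F.le (E y) (F.top j E y) := by
  unfold top pw; split_ifs
  · exact F.le_hi _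
  · exact F.refl _

lemma top_mono {j j' : ℕ} (h : j ≤ j') (E : V D → X) (y : V D) :
    F.le (F.top j E y) (F.top j' E y) := by
  by_cases h1 : d 0 y < j'
  · rw [top, top, pw_mem (s := {y | d 0 y < j'}) _ _ h1]; exact F.le_hi _
  · rw [top, top, pw_not (s := {y | d 0 y < j'}) _ _ h1,
      pw_not (s := {y | d 0 y < j}) _ _ fun h2 => h1 (lt_of_lt_of_le h2 h)]
    exact F.refl _

/-- an open path from the ball of radius `j + 1` to distance `k` after raising the ball -/
def GE (j k : ℕ) : Set (V D → X) :=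
  {E | ∃ a b, d 0 a ≤ j + 1 ∧ k ≤ d 0 b ∧ Conn F.r (opn F.O (F.top j E)) a b}

lemma measurableSet_GE (j k : ℕ) : MeasurableSet (F.GE j k) := by
  have mt : Measurable (F.top j) := measurable_pw _ measurable_const measurable_id
  exact measurableSet_setOfPred.2 (Measurable.exists fun a => Measurable.exists fun b =>
    measurable_const.and (measurable_const.and (measurableSet_setOfPred.1
      (measurableSet_conn _ (fun v => mt (measurableSet_opn F.meas v)) F.r a b))))

lemma dep_GE (v : V D) (j k : ℕ) : Dep {y | d v y < j}ᶜ (sh v ⁻¹' F.GE j k) := by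
  intro E E' he h
  have : F.top j (sh v E) = F.top j (sh v E') := by
    ext y
    unfold top pw
    split_ifs with hy
    · rfl
    · exact he _ (by rw [mem_compl_iff, mem_ofPred_eq, d_zero_add]; exact hy)
  simpa only [mem_preimage, GE, mem_ofPred_eq, ← this] using h

lemma GE_mono {j j' : ℕ} (h : j ≤ j') (k : ℕ) : F.GE j k ⊆ F.GE j' k := by
  rintro E ⟨a, b, h1, h2, h3⟩
  exact ⟨a, b, by omega, h2, h3.mono (F.opn_mono (F.top_mono h E))⟩

lemma mem_GE {v u w : V D} {j k : ℕ} {E : V D → X} (h1 : d v u ≤ j + 1) (h2 : k ≤ d v w)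
    (h3 : Conn F.r (opn F.O E) u w) : sh v E ∈ F.GE j k := by
  refine ⟨u - v, w - v, ?_, ?_, Conn.mono ?_ (F.opn_mono (F.le_top j _))⟩
  · rw [← d_zero_add v]; simpa using h1
  · rw [← d_zero_add v]; simpa using h2
  · rw [opn_sh, conn_sh]; simpa using h3

lemma dep_unk (z : V D) (r : ℕ) : Dep {y | d z y < r} (sh z ⁻¹' F.Unk r) := by
  intro E E' he h
  have := fun c => trunc_congr (ρ := r) (E := E) (E' := E') (v := z) he c
  simpa only [mem_preimage, Unk, mem_ofPred_eq, ← this] using h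

lemma GE_rec {j k n R0 : ℕ} (h1 : j + 1 ≤ R0) (h2 : R0 < k) (h3 : k ≤ n) :
    F.GE j k ⊆ (⋃ y ∈ box (0 : V D) (R0 + 1), F.ArmE y (k - R0 - 1)) ∪
      ⋃ z ∈ (box (0 : V D) n).filter fun z => R0 < d 0 z,
        sh z ⁻¹' F.Unk (d 0 z - j) ∩ sh 0 ⁻¹' F.GE (2 * d 0 z) k := by
  intro E hE
  have hE' := hE
  obtain ⟨a, b, h4, h5, h6⟩ := hE'
  obtain ⟨c, h7, h8⟩ := h6.hitD F.r_near 0 k (by omega) h5
  by_cases h : ∃ z, R0 < d 0 z ∧ d 0 z ≤ k ∧ z ∈ opn F.O (F.top j E) ∧ z ∉ opn F.O E
  · obtain ⟨z, z1, z2, z3, z4⟩ := h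
    right
    simp only [mem_iUnion, Finset.mem_filter, mem_box]
    refine ⟨z, ⟨by omega, z1⟩, ⟨?_, fun h9 => z4 (F.up _ _ (F.cut_le _ _) h9)⟩, ?_⟩
    · rw [trunc_congr (E' := F.top j E) fun y hy => ?_]
      · exact F.up _ _ (F.le_cut _ _) z3
      · have := d_tri 0 y z
        have := d_comm y z
        exact (pw_not (s := {y | d 0 y < j}) _ _ (by simp only [mem_ofPred_eq]; omega)).symm
    · rw [mem_preimage, sh_zero]
      exact F.GE_mono (by omega) k hE
  · left
    push Not at h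
    obtain ⟨u, u1, y, -, y1, y2⟩ := h8.last_exit (T := {v | d 0 v ≤ R0})
      (by simp only [mem_ofPred_eq]; omega) (by simp only [mem_ofPred_eq]; omega)
    simp only [mem_iUnion, mem_box]
    have := d_tri 0 u y
    have := d_tri 0 y c
    have := F.r_near _ _ y1
    have u2 : d 0 u ≤ R0 := u1
    exact ⟨y, by omega, c, by omega, y2.mono fun v hv => h v (not_le.1 hv.2) hv.1.2 hv.1.1⟩

variable (m : Measure X) [IsProbabilityMeasure m]

/-- probability of `GE` -/
noncomputable def G (j k : ℕ) : ℝ := (Pm (V D) m).real (F.GE j k)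

lemma prob_inter (F' : Fld D X) (m : Measure X) [IsProbabilityMeasure m] {v z : V D} {j k r : ℕ}
    (h : ∀ y, d z y < r → d v y < j) :
    (Pm (V D) m).real (sh z ⁻¹' F.Unk r ∩ sh v ⁻¹' F'.GE j k) =
      (Pm (V D) m).real (F.Unk r) * F'.G m j k := by
  rw [measureReal_def, indep _ ((F.dep_unk z r).mono h) (F'.dep_GE v j k)
    (measurable_sh z (F.measurableSet_unk r)) (measurable_sh v (F'.measurableSet_GE j k)),
    (mp_sh m z).measure_preimage (F.measurableSet_unk r).nullMeasurableSet,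
    (mp_sh m v).measure_preimage (F'.measurableSet_GE j k).nullMeasurableSet, ENNReal.toReal_mul]
  rfl

lemma G_rec {j k n R0 : ℕ} (h1 : j + 1 ≤ R0) (h3 : k ≤ n) :
    F.G m j k ≤ (if k < R0 + 1 then 1 else (2 * (R0 + 1 : ℕ) + 1) ^ D * F.th m (k - R0 - 1)) +
      ∑ z ∈ (box (0 : V D) n).filter fun z => R0 < d 0 z,
        (Pm (V D) m).real (F.Unk (d 0 z - j)) * F.G m (2 * d 0 z) k := by
  split_ifs with h2
  · exact measureReal_le_one.trans (le_add_of_nonneg_right
      (Finset.sum_nonneg fun _ _ => mul_nonneg measureReal_nonneg measureReal_nonneg))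
  refine (rmono (F.GE_rec h1 (by omega) h3)).trans ((measureReal_union_le _ _).trans
    (add_le_add ((measureReal_biUnion_finset_le _ _).trans (le_of_eq ?_))
      ((measureReal_biUnion_finset_le _ _).trans (Finset.sum_le_sum fun z _ => le_of_eq ?_))))
  · simp only [prob_armE, Finset.sum_const, card_box, nsmul_eq_mul]
    push_cast; ring
  · refine F.prob_inter F m fun y hy => ?_
    have := d_tri 0 z y
    omega

end Fld

theorem sum_G {X : Type} [MeasurableSpace X] {C q : ℝ} (C0 : 0 ≤ C) (q0 : 0 < q) (q1 : q < 1) :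
    ∃ A > 0, ∀ (F : Fld D X) (m : Measure X) [IsProbabilityMeasure m],
      (∀ j, (Pm (V D) m).real (F.Unk j) ≤ C * q ^ j) → ∀ n j : ℕ,
        ∑ k ∈ Finset.range n, F.G m j k ≤
          A * (j + 1) ^ (D + 1) * (1 + ∑ i ∈ Finset.range n, F.th m i) := by
  set r := √q with hr
  have r0 : 0 < r := Real.sqrt_pos.2 q0
  have r1 : r < 1 := (Real.sqrt_lt' one_pos).2 (by simpa using q1)
  have rr : q = r ^ 2 := (Real.sq_sqrt q0.le).symm
  obtain ⟨K, hK⟩ := tail_ring (D := D) _ ((ExpDecay.poly (g := fun n => C * r ^ n)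
    ⟨C, r, C0, r0, r1, fun _ => le_rfl⟩ (D + 1)).const_mul (c := 2 ^ (D + 1)) (by positivity))
  refine ⟨4 * (2 * K + 9) ^ (D + 1), by positivity, fun F m _ hu n => ?_⟩
  set A : ℝ := 4 * (2 * K + 9) ^ (D + 1) with hA
  set Z := 1 + ∑ i ∈ Finset.range n, F.th m i with hZ
  have S0 : 0 ≤ ∑ i ∈ Finset.range n, F.th m i := Finset.sum_nonneg fun _ _ => F.th_nonneg m _
  have Z1 : 1 ≤ Z := by linarith
  have K0 : (0 : ℝ) ≤ K := Nat.cast_nonneg K
  have A1 : (1 : ℝ) ≤ (2 * K + 9) ^ (D + 1) := one_le_pow₀ (by linarith)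
  have key : ∀ t j : ℕ, n ≤ j + t →
      ∑ k ∈ Finset.range n, F.G m j k ≤ A * (j + 1) ^ (D + 1) * Z := by
    intro t
    induction t with
    | zero =>
      intro j hj
      have j0 : (0 : ℝ) ≤ j := Nat.cast_nonneg j
      have a1 : ∑ k ∈ Finset.range n, F.G m j k ≤ n := by
        simpa using Finset.sum_le_card_nsmul (Finset.range n) (F.G m j) 1
          fun _ _ => measureReal_le_one
      have a2 : (n : ℝ) ≤ j := by exact_mod_cast hj
      have a3 : (j + 1 : ℝ) ≤ (j + 1) ^ (D + 1) := le_self_pow₀ (by linarith) (by omega)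
      calc _ ≤ 1 * (j + 1 : ℝ) ^ (D + 1) * 1 := by linarith
        _ ≤ _ := by gcongr; linarith
    | succ t ih =>
      intro j hj
      have j0 : (0 : ℝ) ≤ j := Nat.cast_nonneg j
      obtain ⟨R0, hR⟩ : ∃ R0, R0 = 2 * j + K + 1 := ⟨_, rfl⟩
      refine (Finset.sum_le_sum fun k hk => F.G_rec m (R0 := R0) (by omega)
        (Finset.mem_range.1 hk).le).trans ?_
      rw [Finset.sum_add_distrib, Finset.sum_comm]
      set w : ℝ := (2 * K + 9) * (j + 1) with hw
      have w1 : 1 ≤ w := by nlinarith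
      have a1 : ∑ k ∈ Finset.range n, (if k < R0 + 1 then 1 else
          (2 * (R0 + 1 : ℕ) + 1 : ℝ) ^ D * F.th m (k - R0 - 1)) ≤ 2 * w ^ (D + 1) * Z := by
        refine (Finset.sum_le_sum_of_subset_of_nonneg
          (Finset.range_subset_range.2 (Nat.le_add_left n (R0 + 1))) fun k _ _ => ?_).trans ?_
        · have := F.th_nonneg m (k - R0 - 1)
          split_ifs <;> positivity
        rw [Finset.sum_range_add,
          Finset.sum_congr rfl fun k hk => if_pos (Finset.mem_range.1 hk),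
          Finset.sum_congr rfl fun k _ => if_neg (show ¬ R0 + 1 + k < R0 + 1 by omega),
          ← Finset.mul_sum]
        simp only [show ∀ k, R0 + 1 + k - R0 - 1 = k from fun k => by omega, Finset.sum_const,
          Finset.card_range, nsmul_eq_mul, mul_one]
        have b1 : (2 * (R0 + 1 : ℕ) + 1 : ℝ) ≤ w := by rw [hR, hw]; push_cast; nlinarith
        have b2 : ((R0 + 1 : ℕ) : ℝ) ≤ w ^ (D + 1) * Z := by
          have : w ≤ w ^ (D + 1) := le_self_pow₀ w1 (by omega)
          have : ((R0 + 1 : ℕ) : ℝ) ≤ w := by linarith [(Nat.cast_nonneg (R0 + 1) : (0 : ℝ) ≤ _)]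
          nlinarith
        have b3 : (2 * (R0 + 1 : ℕ) + 1 : ℝ) ^ D * ∑ i ∈ Finset.range n, F.th m i ≤
            w ^ (D + 1) * Z :=
          mul_le_mul ((pow_le_pow_left₀ (by positivity) b1 D).trans
            (pow_le_pow_right₀ w1 (by omega))) (by linarith) S0 (by positivity)
        linarith
      have a2 : ∑ z ∈ (box (0 : V D) n).filter fun z => R0 < d 0 z, ∑ k ∈ Finset.range n,
          (Pm (V D) m).real (F.Unk (d 0 z - j)) * F.G m (2 * d 0 z) k ≤ 1 / 2 * (A * Z) := by
        refine le_trans ?_ (mul_le_mul_of_nonneg_right (hK ((box (0 : V D) n).filter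
          fun z => R0 < d 0 z) fun z hz => by have := (Finset.mem_filter.1 hz).2; omega)
          (by positivity))
        rw [Finset.sum_mul]
        refine Finset.sum_le_sum fun z hz => ?_
        have z1 := (Finset.mem_filter.1 hz).2
        rw [← Finset.mul_sum]
        have b1 : (Pm (V D) m).real (F.Unk (d 0 z - j)) ≤ C * r ^ d 0 z := by
          refine (hu _).trans (mul_le_mul_of_nonneg_left ?_ C0)
          rw [rr, ← pow_mul]
          exact pow_le_pow_of_le_one r0.le r1.le (by omega)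
        have b2 := ih (2 * d 0 z) (by omega)
        have b3 := card_le_poly (D := D + 1) (d 0 z)
        push_cast at b2
        calc _ ≤ C * r ^ d 0 z * (A * (2 ^ (D + 1) * (d 0 z + 1) ^ (D + 1)) * Z) :=
              mul_le_mul b1 (b2.trans (by gcongr))
                (Finset.sum_nonneg fun _ _ => measureReal_nonneg) (by positivity)
          _ = _ := by ring
      have a3 : A * Z ≤ A * (j + 1) ^ (D + 1) * Z := by
        have : (1 : ℝ) ≤ (j + 1) ^ (D + 1) := one_le_pow₀ (by linarith)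
        calc A * Z = A * 1 * Z := by ring
          _ ≤ _ := by gcongr
      have a4 : 2 * w ^ (D + 1) * Z = 1 / 2 * (A * (j + 1) ^ (D + 1) * Z) := by
        rw [hw, hA, mul_pow]; ring
      linarith
  exact fun j => key n j (by omega)

end Pool.Agent.EB.Ad
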