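import Pool.Agent.P.MP_d1873d_pr.Ad.Explore

/-! Sharpness of the phase transition for local monotone fields. -/

namespace Pool.Agent.EB.Ad

open MeasureTheory Set Measure Filter Topology
open scoped ENNReal

variable {D : ℕ}

lemma final_analysis (g0 g1 : ℕ → ℝ) (c c0 : ℝ) (hc : 0 < c) (hc0 : 0 < c0) (L0 : ℕ)
    (hl : ∀ n ≥ L0, c0 * (n + 1) ≤ (1 + ∑ i ∈ Finset.range (n + 1), g0 i) ^ 2)
    (h1 : ∀ k, g1 k ≤ 1) (hanti : Antitone g1)
    (h : ∀ n, c * (Real.log (1 + ∑ i ∈ Finset.range (n + 1), g0 i) - Real.log 2) ≤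
      ∑ k ∈ Finset.Icc 1 n, g1 k / k) : ∀ k, c / 4 ≤ g1 k := by
  intro k0
  by_contra hk
  push Not at hk
  have up : ∀ n : ℕ, ∑ k ∈ Finset.Icc 1 n, g1 k / k ≤ k0 + c / 4 * (1 + Real.log (n + 1)) := by
    intro n
    have a1 : ∀ k ∈ Finset.Icc 1 n, g1 k / k ≤ (if k < k0 then 1 else 0) + c / 4 * (k : ℝ)⁻¹ := by
      intro k hk'
      have k1 : (1 : ℝ) ≤ k := by exact_mod_cast (Finset.mem_Icc.1 hk').1
      split_ifs with h2
      · have : g1 k / k ≤ 1 := (div_le_one (by linarith)).2 ((h1 k).trans k1)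
        have : 0 ≤ c / 4 * (k : ℝ)⁻¹ := by positivity
        linarith
      · rw [zero_add, div_eq_mul_inv]
        exact mul_le_mul_of_nonneg_right ((hanti (not_lt.1 h2)).trans hk.le) (by positivity)
    refine (Finset.sum_le_sum a1).trans ?_
    rw [Finset.sum_add_distrib, ← Finset.mul_sum, Finset.sum_boole]
    refine add_le_add ?_ (mul_le_mul_of_nonneg_left ?_ (by positivity))
    · have : ((Finset.Icc 1 n).filter fun k => k < k0).card ≤ (Finset.range k0).card :=
        Finset.card_le_card fun k hk => by simpa using (Finset.mem_filter.1 hk).2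
      rw [Finset.card_range] at this
      exact_mod_cast this
    · have a2 := harmonic_le_one_add_log n
      rw [harmonic_eq_sum_Icc] at a2
      push_cast at a2
      refine a2.trans (add_le_add le_rfl ?_)
      rcases Nat.eq_zero_or_pos n with rfl | hn
      · simp
      · exact Real.log_le_log (by exact_mod_cast hn) (by linarith)
  have low : ∀ n : ℕ, L0 ≤ n → Real.log c0 + Real.log (n + 1) ≤
      2 * Real.log (1 + ∑ i ∈ Finset.range (n + 1), g0 i) := by
    intro n hn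
    have n0 : (0 : ℝ) < n + 1 := by positivity
    have a7 := Real.log_le_log (by positivity) (hl n hn)
    rw [Real.log_pow, Real.log_mul hc0.ne' n0.ne'] at a7
    exact_mod_cast a7
  have ht : Tendsto (fun n : ℕ => Real.log (n + 1)) atTop atTop :=
    Real.tendsto_log_atTop.comp (tendsto_atTop_add_const_right _ _ tendsto_natCast_atTop_atTop)
  obtain ⟨n, hn1, hn2⟩ := ((ht.eventually_gt_atTop
    (4 / c * (k0 + c / 4 + c * Real.log 2 - c / 2 * Real.log c0))).and
    (eventually_ge_atTop L0)).exists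
  have b1 := up n
  have b2 := mul_le_mul_of_nonneg_left (low n hn2) hc.le
  have b3 := h n
  have b4 := mul_lt_mul_of_pos_left hn1 hc
  rw [← mul_assoc, mul_div_cancel₀ _ hc.ne'] at b4
  nlinarith

section mix
variable {X : Type} [MeasurableSpace X] (ν0 ν1 : Measure X)

variable [IsProbabilityMeasure ν0] [IsProbabilityMeasure ν1]

lemma russo_mix {le : X → X → Prop} (hr : ∀ a, le a a) {K : ℝ} (hK : 0 < K)
    (H : ∀ S, MeasurableSet S → (∀ a b, le a b → a ∈ S → b ∈ S) →
      ν1.real S * (1 - ν0.real S) ≤ K * (ν1.real S - ν0.real S))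
    {p p' κ : ℝ} (h0 : 0 ≤ p) (h1 : p ≤ p') (h2 : p' ≤ 1) (κ0 : 0 ≤ κ) (κ1 : κ ≤ 1)
    (hκ : κ * (1 - p) ≤ 1 - p') {A : Set ((V D) → X)} (mA : MeasurableSet A) (hA : Up le A)
    (Λ : Finset (V D)) (dA : Dep Λ A) :
    (Pm (V D) (mix ν0 ν1 p)).real A + (p' - p) / K * κ ^ Λ.card *
      ∑ x ∈ Λ, (infl (mix ν0 ν1 p) A x).toReal ≤ (Pm (V D) (mix ν0 ν1 p')).real A := by
  have := mix_prob ν0 ν1 h0 (h1.trans h2)
  have := mix_prob ν0 ν1 (h0.trans h1) h2
  have γ0 : 0 ≤ (p' - p) / K := div_nonneg (by linarith) hK.le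
  have := russo (mix ν0 ν1 p) (mix ν0 ν1 p') (ENNReal.ofReal κ) (ENNReal.ofReal ((p' - p) / K))
    (by simpa using κ1) ?_ hr ?_ mA hA Λ dA
  · have h3 := ENNReal.toReal_mono (measure_ne_top _ _) this
    rw [ENNReal.toReal_add (measure_ne_top _ _) (ENNReal.mul_ne_top (ENNReal.mul_ne_top
      ENNReal.ofReal_ne_top (ENNReal.pow_ne_top ENNReal.ofReal_ne_top))
      (ENNReal.sum_ne_top.2 fun x _ => infl_ne_top _ _ x)), ENNReal.toReal_mul, ENNReal.toReal_mul,
      ENNReal.toReal_pow, ENNReal.toReal_ofReal γ0, ENNReal.toReal_ofReal κ0,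
      ENNReal.toReal_sum fun x _ => infl_ne_top _ _ x] at h3
    exact h3
  · refine Measure.le_iff'.2 fun S => ?_
    rw [Measure.smul_apply, smul_eq_mul, mix_apply _ _ h0 (h1.trans h2),
      mix_apply _ _ (h0.trans h1) h2, ← ENNReal.ofReal_mul κ0]
    refine ENNReal.ofReal_le_ofReal ?_
    have a0 : 0 ≤ ν0.real S := measureReal_nonneg
    have b0 : 0 ≤ ν1.real S := measureReal_nonneg
    have : κ * p ≤ p' := by nlinarith
    nlinarith [mul_le_mul_of_nonneg_right hκ a0, mul_le_mul_of_nonneg_right this b0]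
  · intro S mD hD
    have h4 := H S mD hD
    rw [mix_apply _ _ h0 (h1.trans h2), mix_apply _ _ h0 (h1.trans h2),
      mix_apply _ _ (h0.trans h1) h2, probReal_compl_eq_one_sub mD, probReal_compl_eq_one_sub mD]
    set a := ν0.real S
    set b := ν1.real S
    have a0 : 0 ≤ a := measureReal_nonneg
    have b0 : 0 ≤ b := measureReal_nonneg
    have a1 : a ≤ 1 := measureReal_le_one
    have b1 : b ≤ 1 := measureReal_le_one
    have ab : a ≤ b := by
      have := (mul_nonneg b0 (sub_nonneg.2 a1)).trans h4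
      exact sub_nonneg.1 (nonneg_of_mul_nonneg_right this hK)
    have p1 : 0 ≤ 1 - p := by linarith
    have u0 : 0 ≤ (1 - p) * a + p * b := by positivity
    have w0 : 0 ≤ (1 - p) * (1 - a) + p * (1 - b) :=
      add_nonneg (mul_nonneg p1 (by linarith)) (mul_nonneg h0 (by linarith))
    rw [← ENNReal.ofReal_mul u0, ← ENNReal.ofReal_mul γ0,
      ← ENNReal.ofReal_add u0 (mul_nonneg γ0 (mul_nonneg u0 w0))]
    refine ENNReal.ofReal_le_ofReal ?_
    have h5 : ((1 - p) * a + p * b) * ((1 - p) * (1 - a) + p * (1 - b)) ≤ b * (1 - a) :=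
      mul_le_mul (by nlinarith) (by nlinarith) w0 b0
    have h6 := mul_le_mul_of_nonneg_left (h5.trans h4) γ0
    rw [← mul_assoc _ K, div_mul_cancel₀ _ hK.ne'] at h6
    linarith

end mix

namespace Fld

variable {X : Type} [MeasurableSpace X] (F : Fld D X)

lemma up_armE (v : (V D)) (k : ℕ) : Up F.le (F.ArmE v k) :=
  fun _ _ h hE => Arm.mono hE (F.opn_mono h)

variable (ν0 ν1 : Measure X) [IsProbabilityMeasure ν0] [IsProbabilityMeasure ν1]

/-- the hypotheses on a pair of one site laws -/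
structure Hyp (K b B : ℝ) (u : ℕ → ℝ) : Prop where
  hK : 0 < K
  H : ∀ S, MeasurableSet S → (∀ a b, F.le a b → a ∈ S → b ∈ S) →
      ν1.real S * (1 - ν0.real S) ≤ K * (ν1.real S - ν0.real S)
  hu : ExpDecay u
  hU : ∀ p, 0 ≤ p → p ≤ 1 → ∀ j, (Pm (V D) (mix ν0 ν1 p)).real (F.Unk j) ≤ u j
  b0 : 0 < b
  hD : ∃ D0, MeasurableSet D0 ∧ b ≤ ν0.real D0 ∧ b ≤ ν1.real D0 ∧ ∀ E, E 0 ∈ D0 → E ∉ F.O
  B0 : 0 < B
  hB : ∀ p, 0 ≤ p → p ≤ 1 → F.VB (mix ν0 ν1 p) B

namespace Hyp

variable {F ν0 ν1} {K b B : ℝ} {u : ℕ → ℝ} (G : F.Hyp ν0 ν1 K b B u)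
include G

omit [IsProbabilityMeasure ν0] [IsProbabilityMeasure ν1] in
lemma hU0 (j : ℕ) : (Pm (V D) ν0).real (F.Unk j) ≤ u j := by
  simpa [mix_zero] using G.hU 0 le_rfl zero_le_one j

omit [IsProbabilityMeasure ν0] [IsProbabilityMeasure ν1] in
lemma hU1 (j : ℕ) : (Pm (V D) ν1).real (F.Unk j) ≤ u j := by
  simpa [mix_one] using G.hU 1 zero_le_one le_rfl j

omit [IsProbabilityMeasure ν0] [IsProbabilityMeasure ν1] in
lemma u0 (j : ℕ) : 0 ≤ u j := measureReal_nonneg.trans (G.hU0 j)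

lemma mono (ρ k : ℕ) {p p' : ℝ} (h0 : 0 ≤ p) (h1 : p ≤ p') (h2 : p' ≤ 1) :
    (F.trunc ρ).th (mix ν0 ν1 p) k ≤ (F.trunc ρ).th (mix ν0 ν1 p') k := by
  have := russo_mix ν0 ν1 F.refl G.hK G.H h0 h1 h2 le_rfl zero_le_one (by linarith)
    ((F.trunc ρ).measurableSet_armE 0 k) ((F.trunc ρ).up_armE 0 k) _ (F.dep_arm ρ k)
  refine le_trans (le_add_of_nonneg_right ?_) this
  exact mul_nonneg (mul_nonneg (div_nonneg (by linarith) G.hK.le) (by positivity))
    (Finset.sum_nonneg fun _ _ => ENNReal.toReal_nonneg)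

lemma top (ρ k : ℕ) {p : ℝ} (h0 : 0 ≤ p) (h1 : p ≤ 1) :
    (F.trunc ρ).th (mix ν0 ν1 p) k ≤ F.th ν1 k + (2 * k + 1) ^ D * u ρ := by
  refine (G.mono ρ k h0 h1 le_rfl).trans ?_
  rw [mix_one]
  exact (F.trunc_le_th ν1 ρ k).trans (add_le_add le_rfl
    (mul_le_mul_of_nonneg_left (G.hU1 ρ) (by positivity)))

lemma bot (ρ k : ℕ) {p : ℝ} (h0 : 0 ≤ p) (h1 : p ≤ 1) :
    F.th ν0 k ≤ (F.trunc ρ).th (mix ν0 ν1 p) k := by
  refine (F.th_le_trunc ν0 ρ k).trans ?_
  have := G.mono ρ k le_rfl h0 h1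
  rwa [mix_zero] at this

lemma grow {ρ : ℕ} (hρ : 1 ≤ ρ) (k : ℕ) (p h : ℝ) (hp : 0 ≤ p) (hh : 0 ≤ h) (hph : p + h ≤ 1 / 2)
    (hc' : 4 * h * (box (0 : V D) (k + ρ)).card ≤ 1) :
    (F.trunc ρ).th (mix ν0 ν1 p) k * (1 + h * (b / (12 * K * B)) * k /
      (1 + ∑ i ∈ Finset.range k, (F.trunc ρ).th (mix ν0 ν1 p) i)) ≤
      (F.trunc ρ).th (mix ν0 ν1 (p + h)) k := by
  obtain ⟨hK, H, -, -, b0, ⟨D0, mD, hD0, hD1, hD⟩, hB0, hB⟩ := G
  have := mix_prob ν0 ν1 hp (by linarith)
  have a1 := russo_mix ν0 ν1 F.refl hK H hp (p' := p + h) (κ := 1 - 2 * h) (by linarith)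
    (by linarith) (by linarith) (by linarith) (by nlinarith)
    ((F.trunc ρ).measurableSet_armE 0 k) ((F.trunc ρ).up_armE 0 k) _ (F.dep_arm ρ k)
  have a2 := hB p hp (by linarith) ρ k
  have a3 : 1 / 2 ≤ (1 - 2 * h) ^ (box (0 : V D) (k + ρ)).card := by
    have := one_add_mul_le_pow (a := -(2 * h)) (by linarith) (box (0 : V D) (k + ρ)).card
    rw [← sub_eq_add_neg] at this
    linarith
  have a4 : b ≤ 1 - (F.trunc ρ).th (mix ν0 ν1 p) k := by
    rw [th, ← probReal_compl_eq_one_sub ((F.trunc ρ).measurableSet_armE 0 k)]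
    refine le_trans ?_ (rmono (s := (fun E : (V D) → X => E 0) ⁻¹' D0) ?_)
    · have := (measurePreserving_eval_infinitePi (fun _ : (V D) => mix ν0 ν1 p) 0).measure_preimage
        mD.nullMeasurableSet
      rw [measureReal_def]
      erw [this]
      rw [mix_apply _ _ hp (by linarith), ENNReal.toReal_ofReal (add_nonneg (mul_nonneg
        (by linarith) measureReal_nonneg) (mul_nonneg hp measureReal_nonneg))]
      nlinarith
    · rintro E hE ⟨w, -, h1⟩
      have h2 : cut ρ (sh 0 E) F.hi ∈ F.O := h1.1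
      refine hD _ ?_ h2
      rw [sh_zero, cut, pw_mem _ _ (by simp only [mem_ofPred_eq, d_self]; omega)]
      exact hE
  set f := (F.trunc ρ).th (mix ν0 ν1 p) k
  set Z := 1 + ∑ i ∈ Finset.range k, (F.trunc ρ).th (mix ν0 ν1 p) i
  set I := ∑ x ∈ box (0 : V D) (k + ρ), (infl (mix ν0 ν1 p) ((F.trunc ρ).ArmE 0 k) x).toReal
  have Z0 : 0 < Z :=
    add_pos_of_pos_of_nonneg one_pos (Finset.sum_nonneg fun _ _ => (F.trunc ρ).th_nonneg _ _)
  have f0 : 0 ≤ f := (F.trunc ρ).th_nonneg _ _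
  have I0 : 0 ≤ I := Finset.sum_nonneg fun _ _ => ENNReal.toReal_nonneg
  refine le_trans ?_ a1
  rw [mul_add, mul_one]
  refine add_le_add le_rfl ?_
  have a5 : k * (f * b) ≤ 6 * B * Z * I :=
    le_trans (mul_le_mul_of_nonneg_left (mul_le_mul_of_nonneg_left a4 f0) (by positivity)) a2
  calc f * (h * (b / (12 * K * B)) * k / Z) = h / (12 * K * B * Z) * (k * (f * b)) := by
        field_simp
    _ ≤ h / (12 * K * B * Z) * (6 * B * Z * I) := mul_le_mul_of_nonneg_left a5 (by positivity)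
    _ = (p + h - p) / K * (1 / 2) * I := by field_simp; ring
    _ ≤ _ := by
      refine mul_le_mul_of_nonneg_right (mul_le_mul_of_nonneg_left a3 ?_) I0
      exact div_nonneg (by linarith) hK.le

/-- without exponential decay at the first law, the partial sums grow like a power at the second -/
theorem stepA (hnd : ¬ ExpDecay (F.th ν0)) : ∃ c2 > 0, ∃ L0 : ℕ, ∀ n ≥ L0,
    c2 * (n + 1) ≤ (1 + ∑ i ∈ Finset.range (n + 1), F.th ν1 i) ^ 2 := by
  obtain ⟨c0, hc0, L0, hL0⟩ := F.renorm ν0 (G.hu.mono G.hU0) hnd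
  set c := b / (12 * K * B) with hc
  have c0' : 0 < c := by have := G.hK; have := G.b0; have := G.B0; positivity
  set c1 := min c0 1 with hc1
  have c1p : 0 < c1 := lt_min hc0 one_pos
  obtain ⟨m, hm⟩ : ∃ m : ℕ, m = 2 * (D + 1) := ⟨_, rfl⟩
  have m0 : (0 : ℝ) < m := by rw [hm]; positivity
  refine ⟨c1 * c ^ 2 / (8 * m ^ 2), by positivity, L0, fun n hn => ?_⟩
  have main : ∀ ρ ≥ 1, c1 * c ^ 2 / (8 * m ^ 2) * (n + 1) ≤
      (1 + ∑ i ∈ Finset.range (n + 1), (F.th ν1 i + (2 * i + 1) ^ D * u ρ)) ^ 2 := by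
    intro ρ hρ
    obtain ⟨k, hk⟩ : ∃ k, k = n + 1 := ⟨_, rfl⟩
    have hk' : (n + 1 : ℝ) = k := by rw [hk]; push_cast; rfl
    have k1 : (1 : ℝ) ≤ k := by rw [← hk']; linarith [(Nat.cast_nonneg n : (0 : ℝ) ≤ n)]
    rw [← hk, hk']
    set Z := 1 + ∑ i ∈ Finset.range k, (F.th ν1 i + (2 * i + 1) ^ D * u ρ) with hZ
    have Z0 : 0 < Z := add_pos_of_pos_of_nonneg one_pos (Finset.sum_nonneg fun _ _ =>
      add_nonneg (F.th_nonneg _ _) (mul_nonneg (by positivity) (G.u0 ρ)))
    obtain ⟨r, hr⟩ : ∃ r : ℕ, r = (box (0 : V D) (k + ρ)).card + 1 := ⟨_, rfl⟩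
    have r0 : (0 : ℝ) < r := by rw [hr]; positivity
    set h : ℝ := 1 / (2 * (r * m)) with hh
    have h0 : 0 < h := by positivity
    have hj : ∀ j : ℕ, j ≤ r * m → j * h ≤ 1 / 2 := fun j hj => by
      have : (j : ℝ) ≤ r * m := by exact_mod_cast hj
      rw [hh, mul_one_div, div_le_div_iff₀ (by positivity) (by norm_num)]
      linarith
    have x0 : 0 ≤ h * c * k / Z := by positivity
    have key : ∀ j : ℕ, j ≤ r * m →
        F.th ν0 k * (1 + h * c * k / Z) ^ j ≤ (F.trunc ρ).th (mix ν0 ν1 (j * h)) k := by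
      intro j
      induction j with
      | zero => intro _; simpa using G.bot ρ k le_rfl zero_le_one
      | succ j ih =>
        intro hj'
        have a1 := G.grow hρ k (j * h) h (by positivity) h0.le
          (by have := hj (j + 1) hj'; push_cast at this; linarith) (by
            have a2 : ((box (0 : V D) (k + ρ)).card : ℝ) ≤ r := by rw [hr]; push_cast; linarith
            have a3 : (2 : ℝ) ≤ m := by
              rw [hm]; push_cast; linarith [(Nat.cast_nonneg D : (0 : ℝ) ≤ D)]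
            rw [hh, mul_one_div, div_mul_eq_mul_div, div_le_one (by positivity)]
            nlinarith)
        rw [← hc] at a1
        push_cast
        rw [add_mul, one_mul, pow_succ, ← mul_assoc]
        refine le_trans (mul_le_mul (ih (by omega)) (add_le_add le_rfl ?_) (by positivity)
          ((F.trunc ρ).th_nonneg _ _)) a1
        refine div_le_div_of_nonneg_left (by positivity) (add_pos_of_pos_of_nonneg one_pos
          (Finset.sum_nonneg fun _ _ => (F.trunc ρ).th_nonneg _ _)) ?_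
        exact add_le_add le_rfl (Finset.sum_le_sum fun i _ =>
          G.top ρ i (by positivity) ((hj j (by omega)).trans (by norm_num)))
    have a1 := key _ le_rfl
    have := mix_prob ν0 ν1 (p := (r * m : ℕ) * h) (by positivity)
      ((hj _ le_rfl).trans (by norm_num))
    have a2 := a1.trans ((F.trunc ρ).th_le_one _ _)
    set y := c * k / (2 * m * Z) with hy
    have y0 : 0 ≤ y := by positivity
    have a3 : y ≤ (1 + h * c * k / Z) ^ r := by
      refine le_trans ?_ (one_add_mul_le_pow (by linarith) r)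
      have : r * (h * c * k / Z) = y := by rw [hh, hy]; field_simp
      linarith
    have a4 : F.th ν0 k * y ^ m ≤ 1 := by
      refine le_trans (mul_le_mul_of_nonneg_left ?_ (F.th_nonneg _ _)) a2
      rw [pow_mul]
      exact pow_le_pow_left₀ y0 a3 m
    have a5 : (c1 * y ^ 2) ^ (D + 1) ≤ (k + 1 : ℝ) ^ (D + 1) := by
      have a6 : c1 ^ (D + 1) ≤ c0 :=
        (pow_le_of_le_one c1p.le (min_le_right _ _) (by omega)).trans (min_le_left _ _)
      rw [mul_pow, ← pow_mul, ← hm]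
      calc c1 ^ (D + 1) * y ^ m ≤ ((k + 1) ^ D * F.th ν0 k) * y ^ m :=
            mul_le_mul_of_nonneg_right (a6.trans (hL0 k (by omega))) (by positivity)
        _ ≤ (k + 1) ^ D := by rw [mul_assoc]; exact mul_le_of_le_one_right (by positivity) a4
        _ ≤ _ := pow_le_pow_right₀ (by linarith) (by omega)
    have a7 := (pow_le_pow_iff_left₀ (by positivity) (by positivity) (by omega)).1 a5
    have a8 : c1 * y ^ 2 = c1 * c ^ 2 / (8 * m ^ 2) * k * (2 * k) / Z ^ 2 := by
      rw [hy]; field_simp; ring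
    rw [a8, div_le_iff₀ (by positivity)] at a7
    refine le_of_mul_le_mul_right (a7.trans ?_) (show (0 : ℝ) < 2 * k by positivity)
    rw [mul_comm]
    exact mul_le_mul_of_nonneg_left (by linarith) (by positivity)
  have ht : Tendsto (fun ρ => (1 + ∑ i ∈ Finset.range (n + 1),
      (F.th ν1 i + (2 * i + 1) ^ D * u ρ)) ^ 2) atTop
      (𝓝 ((1 + ∑ i ∈ Finset.range (n + 1), (F.th ν1 i + (2 * i + 1) ^ D * 0)) ^ 2)) :=
    ((tendsto_finsetSum _ fun k _ =>
      ((G.hu.tendsto G.u0).const_mul _).const_add _).const_add _).pow 2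
  simp only [mul_zero, add_zero] at ht
  exact ge_of_tendsto ht (eventually_atTop.2 ⟨1, main⟩)

/-- power growth of the partial sums at the first law gives percolation at the second -/
theorem stepB {c0 : ℝ} (hc0 : 0 < c0) {L0 : ℕ} (hL0 : ∀ n ≥ L0,
    c0 * (n + 1) ≤ (1 + ∑ i ∈ Finset.range (n + 1), F.th ν0 i) ^ 2) (k : ℕ) :
    b / (12 * K * B) / 2 / 4 ≤ F.th ν1 k := by
  set c := b / (12 * K * B) with hc
  have c0' : 0 < c := by have := G.hK; have := G.b0; have := G.B0; positivity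
  have S0 : ∀ n, 0 ≤ ∑ i ∈ Finset.range n, F.th ν0 i :=
    fun n => Finset.sum_nonneg fun _ _ => F.th_nonneg _ _
  have main : ∀ n, ∀ ρ ≥ 1,
      c / 2 * (Real.log (1 + ∑ i ∈ Finset.range (n + 1), F.th ν0 i) - Real.log 2) ≤
      ∑ k ∈ Finset.Icc 1 n, (F.th ν1 k + (2 * k + 1) ^ D * u ρ) / k := by
    intro n ρ hρ
    obtain ⟨M, hM1⟩ := exists_nat_gt (2 * ((box (0 : V D) (n + ρ)).card : ℝ))
    have M0 : (0 : ℝ) < M := lt_of_le_of_lt (by positivity) hM1
    set h : ℝ := 1 / (2 * M) with hh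
    have h0 : 0 < h := by positivity
    have hM3 : M * h = 1 / 2 := by rw [hh]; field_simp
    have hj : ∀ j : ℕ, j ≤ M → j * h ≤ 1 / 2 := fun j hj => by
      rw [← hM3]; exact mul_le_mul_of_nonneg_right (by exact_mod_cast hj) h0.le
    have := drt (fun j k => (F.trunc ρ).th (mix ν0 ν1 (j * h)) k)
      (fun _ _ => (F.trunc ρ).th_nonneg _ _) ?_ M n (h * c)
      (1 + ∑ i ∈ Finset.range (n + 1), F.th ν0 i) (by positivity) (by linarith [S0 (n + 1)]) ?_ ?_
    · rw [show M * (h * c) = c / 2 by rw [← mul_assoc, hM3]; ring] at this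
      refine this.trans (Finset.sum_le_sum fun k _ => ?_)
      exact div_le_div_of_nonneg_right
        (G.top ρ k (by positivity) ((hj M le_rfl).trans (by norm_num))) (by positivity)
    · intro j
      by_cases hp : ∀ _ : V D, IsProbabilityMeasure (mix ν0 ν1 (j * h))
      · have := hp 0
        exact (F.trunc ρ).th_le_one _ _
      · simp only [th, Pm, infinitePi]
        rw [dif_neg hp]; simp
    · intro j hj'
      exact add_le_add le_rfl (Finset.sum_le_sum fun i _ =>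
        G.bot ρ i (by positivity) ((hj j hj'.le).trans (by norm_num)))
    · intro j hj' k hk
      have a1 := G.grow hρ k (j * h) h (by positivity) h0.le
        (by have := hj (j + 1) hj'; push_cast at this; linarith) (by
          have : ((box (0 : V D) (k + ρ)).card : ℝ) ≤ (box (0 : V D) (n + ρ)).card := by
            exact_mod_cast Finset.card_le_card fun v hv => by simp at hv ⊢; omega
          nlinarith)
      push_cast
      rwa [add_mul (j : ℝ), one_mul]
  have main2 : ∀ n,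
      c / 2 * (Real.log (1 + ∑ i ∈ Finset.range (n + 1), F.th ν0 i) - Real.log 2) ≤
      ∑ k ∈ Finset.Icc 1 n, F.th ν1 k / k := by
    intro n
    have ht : Tendsto (fun ρ => ∑ k ∈ Finset.Icc 1 n, (F.th ν1 k + (2 * k + 1) ^ D * u ρ) / k)
        atTop (𝓝 (∑ k ∈ Finset.Icc 1 n, (F.th ν1 k + (2 * k + 1) ^ D * 0) / k)) :=
      tendsto_finsetSum _ fun k _ => (((G.hu.tendsto G.u0).const_mul _).const_add _).div_const _
    simp only [mul_zero, add_zero] at ht
    exact ge_of_tendsto ht (eventually_atTop.2 ⟨1, main n⟩)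
  exact final_analysis (F.th ν0) (F.th ν1) (c / 2) c0 (by positivity) hc0 L0 hL0
    (F.th_le_one _) (fun k l h => F.th_anti _ h) main2 k

end Hyp

/-- the infinite cluster event -/
def InfE (v : (V D)) : Set ((V D) → X) := {E | Inf F.r (opn F.O E) v}

lemma measurableSet_infE (v : (V D)) : MeasurableSet (F.InfE v) :=
  measurableSet_inf _ (measurableSet_opn F.meas) _ _

lemma infE_eq (v : (V D)) : F.InfE v = ⋂ k, F.ArmE v k := by
  ext E; simp [InfE, ArmE, inf_iff]

lemma infE_sh (v : (V D)) : F.InfE v = sh v ⁻¹' F.InfE 0 := by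
  simp only [infE_eq, preimage_iInter, ← armE_sh]

lemma infE_ge {δ : ℝ} (h : ∀ k, δ ≤ F.th ν1 k) : δ ≤ (Pm (V D) ν1).real (F.InfE 0) := by
  have ht := tendsto_measure_iInter_atTop (μ := Pm (V D) ν1) (s := fun k => F.ArmE 0 k)
    (fun k => (F.measurableSet_armE 0 k).nullMeasurableSet)
    (fun k l hkl E hE => Arm.anti hE hkl) ⟨0, measure_ne_top _ _⟩
  refine (ENNReal.ofReal_le_iff_le_toReal (measure_ne_top _ _)).1 ?_
  rw [infE_eq]
  exact ge_of_tendsto' ht fun k => ENNReal.ofReal_le_of_le_toReal (h k)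

lemma infE_le (k : ℕ) : (Pm (V D) ν1).real (F.InfE 0) ≤ F.th ν1 k :=
  rmono (by rw [infE_eq]; exact iInter_subset _ k)

end Fld

end Pool.Agent.EB.Ad
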