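import Pool.Agent.P.MP_d1873d_pr.Ad.Forward
import Pool.Agent.P.MP_d1873d_pr.Ad.Sharp

/-! Sharpness of the plus and minus transitions in every dimension. -/

namespace Pool.Agent.EB.Ad

open MeasureTheory Set Measure Filter Topology
open scoped ENNReal

variable {D : ℕ}

lemma adj_eq : (Adj : V D → V D → Prop) = nn := by
  ext u v
  have := sum_abs_eq (u - v)
  simp only [Pi.sub_apply] at this
  simp only [Adj, nn, this]
  omega

lemma joined_iff (s : Bool) (σ : Config D) (a b : V D) :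
    Joined s σ a b ↔ Conn nn {v | σ v = s} a b := by
  unfold Joined; rw [adj_eq]; rfl

lemma mem_Box {n : ℕ} {v : V D} : v ∈ Box D n ↔ d 0 v ≤ n := by
  simp only [Box, mem_ofPred_eq, Int.abs_eq_natAbs, d_le_iff, Pi.zero_apply]
  exact forall_congr' fun i => by omega

lemma le_of_Bdry {n : ℕ} {v : V D} (h : v ∈ Bdry D n) : n ≤ d 0 v := by
  simp only [Bdry, mem_ofPred_eq, mem_Box, adj_eq] at h
  obtain ⟨h1, y, h2, h3⟩ := h
  have := d_tri 0 v y
  have := nn_st h3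
  omega

def CrossS (s : Bool) (n : ℕ) : Set (Config D) :=
  {σ | ∃ a b, d 0 a ≤ n ∧ 2 * n ≤ d 0 b ∧ Conn nn {v | σ v = s} a b}

lemma crossing_sub (s : Bool) (n : ℕ) : Crossing D s n ⊆ CrossS s n := by
  rintro σ ⟨a, h1, b, h2, h3⟩
  exact ⟨a, b, mem_Box.1 h1, le_of_Bdry h2, (joined_iff _ _ _ _).1 h3⟩

lemma mem_Perc {s : Bool} {σ : Config D} : σ ∈ Perc D s ↔ Inf nn {v | σ v = s} 0 := by
  simp only [Perc, mem_ofPred_eq, joined_iff, Inf]

lemma measurableSet_sgn (s : Bool) (v : V D) :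
    MeasurableSet {σ : Config D | v ∈ {v | σ v = s}} :=
  measurable_pi_apply (X := fun _ : Site D => Bool) v (measurableSet_singleton s)

lemma measurableSet_CrossS (s : Bool) (n : ℕ) : MeasurableSet (CrossS s n : Set (Config D)) :=
  measurableSet_setOfPred.2 (Measurable.exists fun a => Measurable.exists fun b =>
    measurable_const.and (measurable_const.and
      (measurableSet_setOfPred.1 (measurableSet_conn _ (measurableSet_sgn s) nn a b))))

lemma measurableSet_Crossing (s : Bool) (n : ℕ) : MeasurableSet (Crossing D s n) := by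
  simp only [Crossing, joined_iff]
  exact measurableSet_setOfPred.2 (Measurable.exists fun a => measurable_const.and
    (Measurable.exists fun b => measurable_const.and
      (measurableSet_setOfPred.1 (measurableSet_conn _ (measurableSet_sgn s) nn a b))))

lemma measurableSet_Perc (s : Bool) : MeasurableSet (Perc D s) := by
  have : Perc D s = {σ | Inf nn {v | σ v = s} 0} := Set.ext fun _ => mem_Perc
  rw [this]
  exact measurableSet_inf _ (measurableSet_sgn s) nn 0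

lemma mp_scale (t : ℝ) : MeasurePreserving (fun (E : V D → ℝ≥0∞) y => E y / ENNReal.ofReal t)
    (Pm (V D) ex) (Pm (V D) (nu t)) :=
  ⟨by fun_prop, infinitePi_map_pi (fun _ : V D => ex) fun _ => measurable_dv t⟩

lemma pi_pos {t : ℝ} (A : Finset (V D)) {S : Set ℝ≥0∞} (mS : MeasurableSet S)
    (h : 0 < (nu t).real S) : 0 < (Pm (V D) (nu t)).real ((A : Set (V D)).pi fun _ => S) := by
  rw [measureReal_def, infinitePi_pi _ fun _ _ => mS, ENNReal.toReal_prod]
  exact Finset.prod_pos fun _ _ => h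

lemma lt_one_of {t : ℝ} {G : Set (V D → ℝ≥0∞)} (A : Finset (V D)) {S : Set ℝ≥0∞}
    (mS : MeasurableSet S) (h : 0 < (nu t).real S) (hG : G ⊆ ((A : Set (V D)).pi fun _ => S)ᶜ) :
    (Pm (V D) (nu t)).real G < 1 := by
  refine (rmono hG).trans_lt ?_
  rw [probReal_compl_eq_one_sub (.pi A.countable_toSet fun _ _ => mS)]
  linarith [pi_pos A mS h]

lemma no_inf {t : ℝ} (W : (V D → ℝ≥0∞) → Set (V D)) {S : Set ℝ≥0∞} (mS : MeasurableSet S)
    (hS : (nu t).real S ≤ bet D) (hW : ∀ E, ∀ v ∈ W E, E v ∈ S) :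
    Pm (V D) (nu t) {E | Inf nn (W E) 0} = 0 := by
  refine peierls_inf _ W (fun A => ?_) 0
  refine le_trans (measure_mono (t := (A : Set (V D)).pi fun _ => S)
    fun E hE x hx => hW E x (hE hx)) ?_
  rw [infinitePi_pi _ fun _ _ => mS]
  refine Finset.prod_le_pow_card _ _ _ fun _ _ => ?_
  rw [← ofReal_measureReal (measure_ne_top _ _)]
  exact ENNReal.ofReal_le_ofReal hS

/-- exponential decay of the one arm probability gives the crossing bound -/
lemma cross_bound (F : Fld D ℝ≥0∞) {t : ℝ} (h : ExpDecay (F.th (nu t))) {S : Set ℝ≥0∞}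
    (mS : MeasurableSet S) (hS : 0 < (nu t).real S) (hF : ∀ E, E 0 ∈ S → E ∉ F.O) :
    ∃ c > 0, ∀ n ≥ 1, (Pm (V D) (nu t)).real (F.Cross n) ≤ Real.exp (-(c * n)) := by
  refine ExpDecay.exp_bound (g := fun n => (Pm (V D) (nu t)).real (F.Cross n))
    (((h.poly D).const_mul (c := 2 ^ D) (by positivity)).mono fun n => ?_)
    fun n _ => lt_one_of (box (0 : V D) n) mS hS ?_
  · refine (F.cross_le _ n).trans ?_
    rw [← mul_assoc]
    exact mul_le_mul_of_nonneg_right (card_le_poly n) (F.th_nonneg _ _)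
  · rintro E ⟨a, b, h2, -, h3⟩ hE
    exact hF (sh a E) (by simpa [sh] using hE a (by simpa using h2)) h3.1

/-- independent sites of density at least 17/18 percolate in the plane -/
lemma iid_perc (m : Measure ℝ≥0∞) [IsProbabilityMeasure m] {S : Set ℝ≥0∞} (mS : MeasurableSet S)
    (hS : m.real Sᶜ ≤ 18⁻¹) :
    Pm (ℤ × ℤ) m {E | ∃ v, EB.Inf EB.nn {x | E x ∈ S} v} ≠ 0 := by
  intro h2
  have h1 : ∀ A : Finset (ℤ × ℤ), Pm (ℤ × ℤ) m {E | (A : Set (ℤ × ℤ)) ⊆ {x | E x ∈ S}ᶜ} ≤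
      18⁻¹ ^ A.card := by
    intro A
    refine le_trans (measure_mono (t := (A : Set (ℤ × ℤ)).pi fun _ => Sᶜ) fun E hE x hx => hE hx) ?_
    rw [infinitePi_pi _ fun _ _ => mS.compl]
    refine Finset.prod_le_pow_card _ _ _ fun _ _ => ?_
    rw [← ofReal_measureReal (measure_ne_top _ _)]
    refine (ENNReal.ofReal_le_ofReal hS).trans (le_of_eq ?_)
    rw [ENNReal.ofReal_inv_of_pos (by norm_num)]
    simp
  have h3 : (univ : Set (ℤ × ℤ → ℝ≥0∞)) ⊆ {E | ∃ v, EB.Inf EB.nn {x | E x ∈ S} v} ∪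
      ⋃ a : ℕ, {E | EB.Arm EB.st {x | E x ∈ S}ᶜ (a, 0) a} := by
    intro E _
    by_cases h4 : ∃ v, EB.Inf EB.nn {x | E x ∈ S} v
    · exact Or.inl h4
    right
    simp only [mem_iUnion, not_exists, mem_ofPred_eq] at h4 ⊢
    obtain ⟨a, -, -, h5⟩ := dual_arm {x | E x ∈ S} le_rfl (((EB.finite_box 0 1).union
      ((EB.finite_box 0 1).biUnion (t := fun x => {v | Conn EB.nn {x | E x ∈ S} x v})
        fun x _ => not_not.1 (h4 x))).subset (by
      rintro v (h5 | ⟨x, h5, h6⟩)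
      · exact Or.inl h5.le
      · exact Or.inr (mem_biUnion h5 h6)))
    exact ⟨a, h5⟩
  have h4 := (measure_mono (μ := Pm (ℤ × ℤ) m) h3).trans ((measure_union_le _ _).trans
    (add_le_add h2.le ((measure_iUnion_le _).trans
      (ENNReal.tsum_le_tsum fun a : ℕ => EB.peierls _ _ _ h1 a (a, 0)))))
  have e1 : (9 * 18⁻¹ : ℝ≥0∞) = 2⁻¹ := by
    rw [show (18 : ℝ≥0∞) = 9 * 2 by norm_num, ENNReal.mul_inv (by simp) (by simp), ← mul_assoc,
      ENNReal.mul_inv_cancel (by simp) (by simp), one_mul]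
  rw [measure_univ, zero_add, e1, ENNReal.tsum_mul_right, ENNReal.tsum_geometric,
    ENNReal.one_sub_inv_two, inv_inv] at h4
  have := ENNReal.toReal_mono (ENNReal.mul_ne_top (by simp) (by simp)) h4
  norm_num at this

lemma plane_perc (hD : 2 ≤ D) (F : Fld D ℝ≥0∞) (hr : F.r = nn) {m : Measure ℝ≥0∞}
    [IsProbabilityMeasure m] {S : Set ℝ≥0∞} (mS : MeasurableSet S) (hS : m.real Sᶜ ≤ 18⁻¹)
    (hF : ∀ E, E 0 ∈ S → E ∈ F.O) : Pm (V D) m (F.InfE 0) ≠ 0 := by
  intro h0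
  have h2 : Pm (V D) m (⋃ v, F.InfE v) = 0 := measure_iUnion_null fun v => by
    rw [F.infE_sh, (mp_sh m v).measure_preimage (F.measurableSet_infE 0).nullMeasurableSet, h0]
  refine iid_perc m mS hS ?_
  let i0 : Fin D := ⟨0, by omega⟩
  let i1 : Fin D := ⟨1, by omega⟩
  have hne : i0 ≠ i1 := by simp [i0, i1]
  let φ : ℤ × ℤ → V D := fun p i => if i = i0 then p.1 else if i = i1 then p.2 else 0
  have φ0 : ∀ p, φ p i0 = p.1 := fun p => by simp [φ]
  have φ1 : ∀ p, φ p i1 = p.2 := fun p => by simp [φ, hne.symm]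
  have inj : Function.Injective φ := fun p q hpq =>
    Prod.ext (by rw [← φ0, ← φ0, hpq]) (by rw [← φ1, ← φ1, hpq])
  have mp : MeasurePreserving (fun (E : V D → ℝ≥0∞) p => E (φ p)) (Pm (V D) m) (Pm (ℤ × ℤ) m) :=
    ⟨by fun_prop, map_infinitePi_infinitePi_of_inj (P := fun _ : V D => m) inj⟩
  have mI : MeasurableSet {E : ℤ × ℤ → ℝ≥0∞ | ∃ v, EB.Inf EB.nn {x | E x ∈ S} v} :=
    measurableSet_setOfPred.2 (Measurable.exists fun v => measurableSet_setOfPred.1
      (EB.measurableSet_inf _ (fun x => measurable_pi_apply x mS) EB.nn v))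
  rw [← mp.measure_preimage mI.nullMeasurableSet]
  refine measure_mono_null (fun E hE => ?_) h2
  obtain ⟨v, hv⟩ := hE
  refine mem_iUnion.2 ⟨φ v, Set.infinite_of_injOn_mapsTo (f := φ) inj.injOn (fun b hb => ?_) hv⟩
  refine Conn.map φ hb (fun u v huv => ?_) fun v hv => hF _ (by simpa [sh] using hv)
  rw [hr]
  change ∑ i, _ = 1
  rw [Fintype.sum_eq_add i0 i1 hne fun i hi => by simp [φ, hi.1, hi.2], φ0, φ0, φ1, φ1]
  exact huv

namespace Rate

variable (Q : Rate D)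

lemma plus_cfg (E : V D → ℝ≥0∞) : {v | Q.cfg 1 E v = true} = opn Q.Fp.O E := by
  rw [opn_Fp]; ext v; simp [cfg, Op]

lemma minus_cfg (E : V D → ℝ≥0∞) : {v | Q.cfg 1 E v = false} = opn Q.Fm.O E := by
  rw [opn_Fm]; ext v; simp [cfg, Op]

lemma plus_not (E : V D → ℝ≥0∞) (hE : E 0 ∈ Ici (1 : ℝ≥0∞)) : E ∉ Q.Fp.O :=
  Q.notMem_of_le (by simpa using hE)

lemma minus_not (E : V D → ℝ≥0∞) (hE : E 0 ∈ Iio (ENNReal.ofReal Q.ε)) : E ∉ Q.Fm.O :=
  fun h => h (Q.mem_of_lt (by simpa using hE))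

lemma hyp (T : ℝ) : ∃ u, ∃ B > 0, ∀ t0 t1, 0 < t0 → t0 < t1 → t1 ≤ T →
    Q.Fp.Hyp (nu t0) (nu t1) (t1 / (t1 - t0)) (Real.exp (-T)) B u ∧ ∀ a, 0 < a → a ≤ t0 →
      Q.Fm.Hyp (nu t1) (nu t0) (t1 / (t1 - t0)) (1 - Real.exp (-(a * Q.ε))) B u := by
  obtain ⟨u, hu, hU⟩ := Q.locality T
  obtain ⟨B, hB0, hB⟩ := variance_bound (D := D) (X := ℝ≥0∞) hu
  refine ⟨u, B, hB0, fun t0 t1 h0 h1 hT => ?_⟩
  have h2 := h0.trans h1
  have e0 := Q.ε_pos
  have hK : 0 < t1 / (t1 - t0) := div_pos h2 (by linarith)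
  have e : ∀ t, 0 < t → t ≤ T → Real.exp (-T) ≤ (nu t).real (Ici 1) := fun t ht ht' => by
    rw [nu_Ici ht ENNReal.one_ne_top]
    exact Real.exp_le_exp.2 (by simpa using ht')
  have e' : ∀ a t, 0 < a → a ≤ t →
      1 - Real.exp (-(a * Q.ε)) ≤ (nu t).real (Iio (ENNReal.ofReal Q.ε)) := fun a t ha ht => by
    rw [← compl_Ici, probReal_compl_eq_one_sub measurableSet_Ici,
      nu_Ici (ha.trans_le ht) ENNReal.ofReal_ne_top, ENNReal.toReal_ofReal e0.le]
    gcongr
  have U1 : ∀ p, 0 ≤ p → p ≤ 1 → ∀ j,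
      (Pm (V D) (mix (nu t0) (nu t1) p)).real (Q.Fp.Unk j) ≤ u j := fun p p0 p1 j => by
    have := mix_prob (nu t0) (nu t1) p0 p1
    exact hU _ (mix_window h0 h2 (by linarith) hT p0 p1) j
  have U2 : ∀ p, 0 ≤ p → p ≤ 1 → ∀ j,
      (Pm (V D) (mix (nu t1) (nu t0) p)).real (Q.Fm.Unk j) ≤ u j := fun p p0 p1 j => by
    have := mix_prob (nu t1) (nu t0) p0 p1
    rw [unk_Fm]
    exact hU _ (mix_window h2 h0 hT (by linarith) p0 p1) j
  refine ⟨⟨hK, fun S mS hS => ?_, hu, U1, Real.exp_pos _,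
    ⟨Ici 1, measurableSet_Ici, e t0 h0 (by linarith), e t1 h2 hT, Q.plus_not⟩, hB0,
      fun p p0 p1 => ?_⟩, fun a ha ha' => ⟨hK, fun S _ hS => nu_ineq h0 h1 hS, hu, U2,
    sub_pos.2 (Real.exp_lt_one_iff.2 (neg_neg_of_pos (by positivity))),
    ⟨_, measurableSet_Iio, e' a t1 ha (by linarith), e' a t0 ha ha', Q.minus_not⟩, hB0,
      fun p p0 p1 => ?_⟩⟩
  · have := nu_ineq h0 h1 (D := Sᶜ) fun a b hab ha hb => ha (hS b a hab hb)
    rw [probReal_compl_eq_one_sub mS, probReal_compl_eq_one_sub mS] at this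
    linarith
  · have := mix_prob (nu t0) (nu t1) p0 p1
    exact hB _ _ (U1 p p0 p1)
  · have := mix_prob (nu t1) (nu t0) p0 p1
    exact hB _ _ (U2 p p0 p1)

lemma const_le {b B T s t : ℝ} (b0 : 0 < b) (B0 : 0 < B) (h0 : 0 < s) (h1 : s < t) (h2 : t ≤ T) :
    b / (96 * T * B) * (t - s) ≤ b / (12 * (t / (t - s)) * B) / 2 / 4 := by
  have a1 : 0 < t - s := by linarith
  have a2 : 0 < t := by linarith
  calc b / (96 * T * B) * (t - s) ≤ b / (96 * t * B) * (t - s) := by gcongr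
    _ = _ := by field_simp; ring

theorem theta_ge {T : ℝ} (hT : 0 < T) : ∃ C > 0, ∀ t0 t1 t2, 0 < t0 → t0 < t1 → t1 < t2 → t2 ≤ T →
    ¬ ExpDecay (Q.Fp.th (nu t0)) → C * (t2 - t1) ≤ (Pm (V D) (nu t2)).real (Q.Fp.InfE 0) := by
  obtain ⟨u, B, B0, h⟩ := Q.hyp T
  refine ⟨Real.exp (-T) / (96 * T * B), by positivity, fun t0 t1 t2 h0 h1 h2 h3 hne => ?_⟩
  obtain ⟨c2, hc2, L0, hL⟩ := (h t0 t1 h0 h1 (by linarith)).1.stepA hne
  exact (const_le (Real.exp_pos _) B0 (h0.trans h1) h2 h3).trans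
    (Q.Fp.infE_ge _ ((h t1 t2 (h0.trans h1) h2 h3).1.stepB hc2 hL))

theorem theta_ge' {a T : ℝ} (ha : 0 < a) (hT : 0 < T) : ∃ C > 0, ∀ t0 t1 t2, a ≤ t0 → t0 < t1 →
    t1 < t2 → t2 ≤ T → ¬ ExpDecay (Q.Fm.th (nu t2)) →
      C * (t1 - t0) ≤ (Pm (V D) (nu t0)).real (Q.Fm.InfE 0) := by
  obtain ⟨u, B, B0, h⟩ := Q.hyp T
  have e0 := Q.ε_pos
  have b0 : 0 < 1 - Real.exp (-(a * Q.ε)) :=
    sub_pos.2 (Real.exp_lt_one_iff.2 (neg_neg_of_pos (by positivity)))
  refine ⟨(1 - Real.exp (-(a * Q.ε))) / (96 * T * B), by positivity,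
    fun t0 t1 t2 h0 h1 h2 h3 hne => ?_⟩
  obtain ⟨c2, hc2, L0, hL⟩ := ((h t1 t2 (by linarith) h2 h3).2 a ha (by linarith)).stepA hne
  exact (const_le b0 B0 (ha.trans_le h0) h1 (by linarith)).trans (Q.Fm.infE_ge _
    (((h t0 t1 (by linarith) h1 (by linarith)).2 a ha h0).stepB hc2 hL))

theorem decay_plus {t0 t2 : ℝ} (h0 : 0 < t0) (h1 : t0 < t2)
    (h : Pm (V D) (nu t2) (Q.Fp.InfE 0) = 0) : ExpDecay (Q.Fp.th (nu t0)) := by
  by_contra hne
  obtain ⟨C, hC, h2⟩ := Q.theta_ge (h0.trans h1)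
  have h3 := h2 t0 ((t0 + t2) / 2) t2 h0 (by linarith) (by linarith) le_rfl hne
  rw [measureReal_def, h, ENNReal.toReal_zero] at h3
  have : 0 < t2 - (t0 + t2) / 2 := by linarith
  exact absurd h3 (not_le.2 (by positivity))

theorem decay_minus {t0 t2 : ℝ} (h0 : 0 < t0) (h1 : t0 < t2)
    (h : Pm (V D) (nu t0) (Q.Fm.InfE 0) = 0) : ExpDecay (Q.Fm.th (nu t2)) := by
  by_contra hne
  obtain ⟨C, hC, h2⟩ := Q.theta_ge' h0 (h0.trans h1)
  have h3 := h2 t0 ((t0 + t2) / 2) t2 le_rfl (by linarith) (by linarith) le_rfl hne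
  rw [measureReal_def, h, ENNReal.toReal_zero] at h3
  have : 0 < (t0 + t2) / 2 - t0 := by linarith
  exact absurd h3 (not_le.2 (by positivity))

theorem small_time : Pm (V D) (nu (bet D)) (Q.Fp.InfE 0) = 0 := by
  refine no_inf (opn Q.Fp.O) (S := Iio 1) measurableSet_Iio ?_ fun E v hv => ?_
  · rw [← compl_Ici, probReal_compl_eq_one_sub measurableSet_Ici,
      nu_Ici (bet_pos D) ENNReal.one_ne_top]
    have := Real.add_one_le_exp (-(bet D * (1 : ℝ≥0∞).toReal))
    simp only [ENNReal.toReal_one, mul_one] at this ⊢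
    linarith
  · by_contra h
    exact Q.plus_not (sh v E) (by simpa [sh] using h) hv

theorem large_time : ∃ t > 0, Pm (V D) (nu t) (Q.Fm.InfE 0) = 0 := by
  have e0 := Q.ε_pos
  have b0 := bet_pos D
  refine ⟨(bet D)⁻¹ / Q.ε, by positivity,
    no_inf (opn Q.Fm.O) (S := Ici (ENNReal.ofReal Q.ε)) measurableSet_Ici ?_ fun E v hv => ?_⟩
  · rw [nu_Ici (by positivity) ENNReal.ofReal_ne_top, ENNReal.toReal_ofReal e0.le,
      div_mul_cancel₀ _ e0.ne', Real.exp_neg]
    have := Real.add_one_le_exp (bet D)⁻¹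
    exact (inv_le_comm₀ (Real.exp_pos _) b0).2 (by linarith)
  · by_contra h
    exact Q.minus_not (sh v E) (by simpa [sh] using h) hv

theorem exists_perc (hD : 2 ≤ D) : ∃ t > 0, Pm (V D) (nu t) (Q.Fp.InfE 0) ≠ 0 := by
  have e0 := Q.ε_pos
  refine ⟨17 / Q.ε, by positivity, plane_perc hD Q.Fp rfl (S := Iio (ENNReal.ofReal Q.ε))
    measurableSet_Iio ?_ fun E hE => Q.mem_of_lt (by simpa using hE)⟩
  rw [compl_Iio, nu_Ici (by positivity) ENNReal.ofReal_ne_top, ENNReal.toReal_ofReal e0.le,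
    div_mul_cancel₀ _ e0.ne', Real.exp_neg]
  have := Real.add_one_le_exp 17
  exact inv_anti₀ (by norm_num) (by linarith)

theorem exists_perc' (hD : 2 ≤ D) : Pm (V D) (nu 18⁻¹) (Q.Fm.InfE 0) ≠ 0 := by
  refine plane_perc hD Q.Fm rfl (S := Ici 1) measurableSet_Ici ?_ Q.plus_not
  rw [probReal_compl_eq_one_sub measurableSet_Ici, nu_Ici (by norm_num) ENNReal.one_ne_top]
  have := Real.add_one_le_exp (-(18⁻¹ * (1 : ℝ≥0∞).toReal))
  simp only [ENNReal.toReal_one, mul_one] at this ⊢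
  linarith

end Rate

namespace Elliptic

variable {lam : (Ball D → Bool) → ℝ} (h : Elliptic lam)

lemma law_eq {t : ℝ} (ht : 0 < t) {A : Set (Config D)} (mA : MeasurableSet A) :
    h.law t A = Pm (V D) (nu t) (h.rate.cfg 1 ⁻¹' A) := by
  rw [law, map_apply (h.rate.measurable_cfg t) mA,
    ← (mp_scale t).measure_preimage (h.rate.measurable_cfg 1 mA).nullMeasurableSet]
  congr 1
  ext E
  have : h.rate.cfg 1 (fun y => E y / ENNReal.ofReal t) = h.rate.cfg t E := by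
    ext x; simp [Rate.cfg, h.rate.Sig_scale ht]
  simp only [mem_preimage, this]

lemma law_crossP {t : ℝ} (ht : 0 < t) (n : ℕ) :
    h.law t (CrossS true n) = Pm (V D) (nu t) (h.rate.Fp.Cross n) := by
  rw [h.law_eq ht (measurableSet_CrossS true n)]
  congr 1
  ext E
  simp only [mem_preimage, CrossS, mem_ofPred_eq, Rate.plus_cfg, Fld.Cross]
  rfl

lemma law_crossM {t : ℝ} (ht : 0 < t) (n : ℕ) :
    h.law t (CrossS false n) = Pm (V D) (nu t) (h.rate.Fm.Cross n) := by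
  rw [h.law_eq ht (measurableSet_CrossS false n)]
  congr 1
  ext E
  simp only [mem_preimage, CrossS, mem_ofPred_eq, Rate.minus_cfg, Fld.Cross]
  rfl

lemma law_percP {t : ℝ} (ht : 0 < t) :
    h.law t (Perc D true) = Pm (V D) (nu t) (h.rate.Fp.InfE 0) := by
  rw [h.law_eq ht (measurableSet_Perc true)]
  congr 1
  ext E
  simp only [mem_preimage, mem_Perc, Rate.plus_cfg, Fld.InfE]
  rfl

lemma law_percM {t : ℝ} (ht : 0 < t) :
    h.law t (Perc D false) = Pm (V D) (nu t) (h.rate.Fm.InfE 0) := by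
  rw [h.law_eq ht (measurableSet_Perc false)]
  congr 1
  ext E
  simp only [mem_preimage, mem_Perc, Rate.minus_cfg, Fld.InfE]
  rfl

lemma cfg_mono {s t : ℝ} (hst : s ≤ t) (E : V D → ℝ≥0∞) :
    {v | h.rate.cfg s E v = true} ⊆ {v | h.rate.cfg t E v = true} := fun v hv => by
  simp only [Rate.cfg, mem_ofPred_eq, decide_eq_true_eq] at hv ⊢
  exact h.rate.Sig_time hst hv

lemma law_mono {s t : ℝ} (hst : s ≤ t) {A : Set (Config D)} (mA : MeasurableSet A)
    (hA : ∀ σ σ' : Config D, {v | σ v = true} ⊆ {v | σ' v = true} → σ ∈ A → σ' ∈ A) :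
    h.law s A ≤ h.law t A := by
  rw [law, law, map_apply (h.rate.measurable_cfg _) mA, map_apply (h.rate.measurable_cfg _) mA]
  exact measure_mono fun E => hA _ _ (h.cfg_mono hst E)

lemma percP_mono {s t : ℝ} (hst : s ≤ t) : h.law s (Perc D true) ≤ h.law t (Perc D true) :=
  h.law_mono hst (measurableSet_Perc true) fun _ _ h5 h6 => mem_Perc.2 ((mem_Perc.1 h6).mono h5)

lemma percM_anti {s t : ℝ} (hst : s ≤ t) : h.law t (Perc D false) ≤ h.law s (Perc D false) := by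
  rw [law, law, map_apply (h.rate.measurable_cfg _) (measurableSet_Perc false),
    map_apply (h.rate.measurable_cfg _) (measurableSet_Perc false)]
  refine measure_mono fun E hE => mem_Perc.2 ((mem_Perc.1 hE).mono fun v hv => ?_)
  have := mt fun h1 : v ∈ {v | h.rate.cfg s E v = true} => h.cfg_mono hst E h1
  simp only [mem_ofPred_eq, Bool.not_eq_true] at this
  exact this hv

lemma nonempty (hD : 2 ≤ D) : {t | 0 ≤ t ∧ 0 < h.law t (Perc D true)}.Nonempty := by
  obtain ⟨T, hT, hT'⟩ := h.rate.exists_perc hD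
  exact ⟨T, hT.le, by rw [h.law_percP hT]; exact pos_iff_ne_zero.2 hT'⟩

lemma nonempty' : {t | 0 ≤ t ∧ h.law t (Perc D false) = 0}.Nonempty := by
  obtain ⟨T, hT, hT'⟩ := h.rate.large_time
  exact ⟨T, hT.le, by rw [h.law_percM hT]; exact hT'⟩

theorem tm_pos (hD : 2 ≤ D) : 0 < tm h.law := by
  refine (show (0 : ℝ) < 18⁻¹ by norm_num).trans_le (le_csInf h.nonempty' fun t ht => ?_)
  by_contra h1
  have h2 := (h.percM_anti (not_le.1 h1).le).trans ht.2.le
  rw [h.law_percM (by norm_num)] at h2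
  exact h.rate.exists_perc' hD (nonpos_iff_eq_zero.1 h2)

theorem tc_pos (hD : 2 ≤ D) : 0 < tc h.law := by
  refine (bet_pos D).trans_le (le_csInf (h.nonempty hD) fun t ht => ?_)
  by_contra h1
  have h2 := ht.2.trans_le (h.percP_mono (not_le.1 h1).le)
  rw [h.law_percP (bet_pos D), h.rate.small_time] at h2
  exact lt_irrefl _ h2

theorem part_one {t : ℝ} (ht : 0 ≤ t) (h1 : t < tc h.law) :
    ∃ c > 0, ∀ n : ℕ, 1 ≤ n → (h.law t).real (Crossing D true n) ≤ Real.exp (-(c * n)) := by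
  have := h.isLaw.prob
  have h2 : (t + 2 * tc h.law) / 3 ∉ {t | 0 ≤ t ∧ 0 < h.law t (Perc D true)} :=
    notMem_of_lt_csInf (show _ < tc h.law by linarith) ⟨0, fun _ hs => hs.1⟩
  simp only [mem_ofPred_eq, not_and, not_lt, nonpos_iff_eq_zero] at h2
  have h3 := h2 (by linarith)
  rw [h.law_percP (by linarith)] at h3
  have p0 : 0 < (2 * t + tc h.law) / 3 := by linarith
  obtain ⟨c, hc, h4⟩ := cross_bound _ (h.rate.decay_plus p0 (by linarith) h3) measurableSet_Ici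
    (nu_Ici_pos p0) h.rate.plus_not
  refine ⟨c, hc, fun n hn => (rmono (crossing_sub true n)).trans (le_trans ?_ (h4 n hn))⟩
  rw [measureReal_def, measureReal_def, ← h.law_crossP p0]
  refine ENNReal.toReal_mono (measure_ne_top _ _) (h.law_mono (by linarith)
    (measurableSet_CrossS true n) fun σ σ' h5 h6 => ?_)
  obtain ⟨a, b, h7, h8, h9⟩ := h6
  exact ⟨a, b, h7, h8, h9.mono h5⟩

theorem part_two (hD : 2 ≤ D) (T : ℝ) : ∃ c > 0, ∀ t, tc h.law < t → t ≤ T →
    c * (t - tc h.law) ≤ (h.law t).real (Perc D true) := by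
  obtain ⟨C, hC, h1⟩ := h.rate.theta_ge (T := max T 1) (lt_max_of_lt_right one_pos)
  refine ⟨C / 2, by positivity, fun t ht hT => ?_⟩
  have c0 := h.tc_pos hD
  obtain ⟨s, ⟨-, hs⟩, hst⟩ := exists_lt_of_csInf_lt (h.nonempty hD)
    (show tc h.law < (3 * tc h.law + t) / 4 by linarith)
  have h2 := hs.trans_le (h.percP_mono hst.le)
  rw [h.law_percP (by linarith)] at h2
  have h3 := h1 ((3 * tc h.law + t) / 4) ((tc h.law + t) / 2) t (by linarith) (by linarith)
    (by linarith) (hT.trans (le_max_left _ _)) fun hd => by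
      have h4 := ge_of_tendsto' (hd.tendsto (h.rate.Fp.th_nonneg _)) (h.rate.Fp.infE_le _)
      exact absurd h4 (not_le.2 (ENNReal.toReal_pos h2.ne' (measure_ne_top _ _)))
  rw [measureReal_def, h.law_percP (by linarith), ← measureReal_def]
  exact le_trans (le_of_eq (by ring)) h3

theorem part_three {t : ℝ} (h1 : tm h.law < t) :
    ∃ c > 0, ∀ n : ℕ, 1 ≤ n → (h.law t).real (Crossing D false n) ≤ Real.exp (-(c * n)) := by
  have := h.isLaw.prob
  obtain ⟨s, ⟨s0, hs⟩, hst⟩ := exists_lt_of_csInf_lt h.nonempty' h1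
  have h2 := nonpos_iff_eq_zero.1 ((h.percM_anti (show s ≤ (s + t) / 2 by linarith)).trans hs.le)
  rw [h.law_percM (by linarith)] at h2
  have p0 : 0 < t := by linarith
  obtain ⟨c, hc, h4⟩ := cross_bound _ (h.rate.decay_minus (t2 := t) (by linarith) (by linarith) h2)
    measurableSet_Iio (nu_Iio_pos p0 h.rate.ε_pos) h.rate.minus_not
  refine ⟨c, hc, fun n hn => (rmono (crossing_sub false n)).trans (le_trans ?_ (h4 n hn))⟩
  rw [measureReal_def, measureReal_def, h.law_crossM p0]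

theorem part_four (hD : 2 ≤ D) : ∃ c > 0, ∀ t, 0 ≤ t → t < tm h.law →
    c * (tm h.law - t) ≤ (h.law t).real (Perc D false) := by
  have := h.isLaw.prob
  have c0 := h.tm_pos hD
  obtain ⟨C, hC, h1⟩ := h.rate.theta_ge' (half_pos c0) c0
  have key : ∀ t, tm h.law / 2 ≤ t → t < tm h.law →
      C / 2 * (tm h.law - t) ≤ (h.law t).real (Perc D false) := by
    intro t ht ht'
    have h2 : (t + 3 * tm h.law) / 4 ∉ {t | 0 ≤ t ∧ h.law t (Perc D false) = 0} :=
      notMem_of_lt_csInf (show _ < tm h.law by linarith) ⟨0, fun _ hs => hs.1⟩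
    simp only [mem_ofPred_eq, not_and] at h2
    have h5 := h2 (by linarith)
    rw [h.law_percM (by linarith)] at h5
    have h3 := h1 t ((t + tm h.law) / 2) ((t + 3 * tm h.law) / 4) ht (by linarith) (by linarith)
      (by linarith) fun hd => by
        have h4 := ge_of_tendsto' (hd.tendsto (h.rate.Fm.th_nonneg _)) (h.rate.Fm.infE_le _)
        exact absurd h4 (not_le.2 (ENNReal.toReal_pos h5 (measure_ne_top _ _)))
    rw [measureReal_def, h.law_percM (by linarith), ← measureReal_def]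
    exact le_trans (le_of_eq (by ring)) h3
  refine ⟨C / 4, by positivity, fun t ht ht' => ?_⟩
  rcases le_total (tm h.law / 2) t with h2 | h2
  · refine le_trans ?_ (key t h2 ht')
    exact mul_le_mul_of_nonneg_right (by linarith) (by linarith)
  · refine le_trans ?_ ((key _ le_rfl (by linarith)).trans
      (ENNReal.toReal_mono (measure_ne_top _ _) (h.percM_anti h2)))
    nlinarith

end Elliptic

end Pool.Agent.EB.Ad
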